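import Mathlib

/-!
# Divisible sandpile: the truncated Green function of simple random walk on an infinite connected
graph of bounded degree is at most `3 D √n`
-/

open Finset

namespace Pool.Agent.V1185.SP

variable {V : Type*} (G : SimpleGraph V) [G.LocallyFinite]

/-- average over the neighbours -/
noncomputable def av (f : V → ℝ) (v : V) : ℝ := (∑ w ∈ G.neighborFinset v, f w) / (G.degree v)

open Classical in
/-- the truncated Green function `∑_{k<n} P^k 1_x` -/
noncomputable def HH (x : V) : ℕ → V → ℝ
  | 0 => fun _ => 0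
  | n + 1 => fun v => (if v = x then 1 else 0) + av G (HH x n) v

variable {G}

theorem av_mono {f g : V → ℝ} (h : ∀ w, f w ≤ g w) (v : V) : av G f v ≤ av G g v := by
  unfold av
  have : ∑ w ∈ G.neighborFinset v, f w ≤ ∑ w ∈ G.neighborFinset v, g w :=
    Finset.sum_le_sum fun w _ => h w
  gcongr

theorem av_add (f g : V → ℝ) (v : V) : av G (fun w => f w + g w) v = av G f v + av G g v := by
  unfold av
  rw [Finset.sum_add_distrib, add_div]

theorem av_mul (c : ℝ) (f : V → ℝ) (v : V) : av G (fun w => c * f w) v = c * av G f v := by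
  unfold av
  rw [← Finset.mul_sum, mul_div_assoc]

theorem av_const {v : V} (hd : 0 < G.degree v) (c : ℝ) : av G (fun _ => c) v = c := by
  unfold av
  rw [Finset.sum_const, nsmul_eq_mul, SimpleGraph.card_neighborFinset_eq_degree]
  have : (G.degree v : ℝ) ≠ 0 := by exact_mod_cast hd.ne'
  field_simp

theorem av_nonneg {f : V → ℝ} (h : ∀ w, 0 ≤ f w) (v : V) : 0 ≤ av G f v := by
  unfold av
  exact div_nonneg (Finset.sum_nonneg fun w _ => h w) (by positivity)

theorem HH_nonneg (x : V) (n : ℕ) (v : V) : 0 ≤ HH G x n v := by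
  induction n generalizing v with
  | zero => exact le_rfl
  | succ n ih =>
    have := av_nonneg (G := G) ih v
    simp only [HH]
    split_ifs <;> linarith

theorem HH_mono (x : V) (n : ℕ) (v : V) : HH G x n v ≤ HH G x (n + 1) v := by
  induction n generalizing v with
  | zero => exact HH_nonneg x 1 v
  | succ n ih =>
    rw [HH, HH]
    have := av_mono (G := G) ih v
    linarith

theorem HH_monotone (x : V) (v : V) : Monotone fun n => HH G x n v :=
  monotone_nat_of_le_succ fun n => HH_mono x n v

theorem HH_le_at (hd : ∀ v, 0 < G.degree v) (x : V) (n : ℕ) (v : V) :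
    HH G x n v ≤ HH G x n x := by
  induction n generalizing v with
  | zero => exact le_rfl
  | succ n ih =>
    by_cases hv : v = x
    · rw [hv]
    · have h1 : HH G x (n + 1) v = av G (HH G x n) v := by
        rw [HH]; simp [hv]
      rw [h1]
      calc av G (HH G x n) v ≤ av G (fun _ => HH G x n x) v := av_mono ih v
        _ = HH G x n x := av_const (hd v) _
        _ ≤ _ := HH_mono x n x

open Classical in
theorem HH_sub (hd : ∀ v, 0 < G.degree v) (x : V) (n : ℕ) (u : V) :
    ∑ w ∈ G.neighborFinset u, (HH G x n u - HH G x n w) ≤ if u = x then (G.degree x : ℝ) else 0 := by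
  have h1 := HH_mono (G := G) x n u
  rw [HH] at h1
  have hd' : (0:ℝ) < G.degree u := by exact_mod_cast hd u
  rw [Finset.sum_sub_distrib, Finset.sum_const, nsmul_eq_mul,
    SimpleGraph.card_neighborFinset_eq_degree]
  unfold av at h1
  have h2 : HH G x n u * G.degree u ≤
      (if u = x then 1 else 0) * G.degree u + ∑ w ∈ G.neighborFinset u, HH G x n w := by
    have := mul_le_mul_of_nonneg_right h1 hd'.le
    rw [add_mul, div_mul_cancel₀ _ hd'.ne'] at this
    exact this
  split_ifs at h2 ⊢ with h
  · subst h; linarith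
  · linarith

theorem HH_support (x : V) (n : ℕ) : {v | HH G x n v ≠ 0}.Finite := by
  classical
  induction n with
  | zero => simp [HH]
  | succ n ih =>
    apply ((Set.finite_singleton x).union (ih.biUnion
      (t := fun w => (G.neighborFinset w : Set V)) fun w _ => Finset.finite_toSet _)).subset
    intro v hv
    by_cases h : v = x
    · left; exact h
    · right
      simp only [Set.mem_setOf_eq, HH, h, if_false, zero_add] at hv
      have : ∃ w ∈ G.neighborFinset v, HH G x n w ≠ 0 := by
        by_contra hc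
        push Not at hc
        apply hv
        unfold av
        rw [Finset.sum_eq_zero hc, zero_div]
      obtain ⟨w, hw, hw2⟩ := this
      simp only [Set.mem_iUnion]
      refine ⟨w, hw2, ?_⟩
      rw [SimpleGraph.mem_neighborFinset] at hw
      simpa [SimpleGraph.mem_neighborFinset] using hw.symm

/-- flux bound -/
theorem HH_lip (hd : ∀ v, 0 < G.degree v) (x : V) (n : ℕ) {y z : V} (hyz : G.Adj y z) :
    HH G x n y - HH G x n z ≤ G.degree x := by
  classical
  set f := HH G x n with hf
  rcases le_or_gt (f y) (f z) with h | h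
  · have : (0:ℝ) ≤ G.degree x := by positivity
    linarith
  have hfy : 0 < f y := lt_of_le_of_lt (HH_nonneg x n z) h
  have hfin : {u | f y ≤ f u}.Finite := (HH_support (G := G) x n).subset fun u hu => by
    have : 0 < f u := hfy.trans_le hu
    exact this.ne'
  set A := hfin.toFinset with hA
  have hmem : ∀ u, u ∈ A ↔ f y ≤ f u := fun u => by simp [hA]
  have h1 : ∑ u ∈ A, ∑ w ∈ G.neighborFinset u, (f u - f w) ≤ G.degree x := by
    calc ∑ u ∈ A, ∑ w ∈ G.neighborFinset u, (f u - f w)
        ≤ ∑ u ∈ A, (if u = x then (G.degree x : ℝ) else 0) :=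
          Finset.sum_le_sum fun u _ => HH_sub hd x n u
      _ ≤ G.degree x := by
          rw [Finset.sum_ite_eq']
          split_ifs
          · exact le_rfl
          · positivity
  have h2 : ∀ u ∈ A, ∑ w ∈ G.neighborFinset u, (f u - f w) =
      ∑ w ∈ A, (if G.Adj u w then f u - f w else 0) +
        ∑ w ∈ (G.neighborFinset u).filter (· ∉ A), (f u - f w) := by
    intro u _
    rw [← Finset.sum_filter_add_sum_filter_not (G.neighborFinset u) (· ∈ A)]
    congr 1
    rw [← Finset.sum_filter]
    apply Finset.sum_congr _ (fun _ _ => rfl)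
    ext w
    simp only [Finset.mem_filter, SimpleGraph.mem_neighborFinset]
    tauto
  rw [Finset.sum_congr rfl h2, Finset.sum_add_distrib] at h1
  have h3 : ∑ u ∈ A, ∑ w ∈ A, (if G.Adj u w then f u - f w else 0) = 0 := by
    have h4 : ∑ u ∈ A, ∑ w ∈ A, (if G.Adj u w then f u - f w else 0) =
        - ∑ u ∈ A, ∑ w ∈ A, (if G.Adj u w then f u - f w else 0) := by
      conv_lhs => rw [Finset.sum_comm]
      rw [← Finset.sum_neg_distrib]
      refine Finset.sum_congr rfl fun u _ => ?_
      rw [← Finset.sum_neg_distrib]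
      refine Finset.sum_congr rfl fun w _ => ?_
      by_cases h : G.Adj u w
      · rw [if_pos h, if_pos h.symm]; ring
      · rw [if_neg h, if_neg fun h' => h h'.symm]; ring
    linarith
  rw [h3, zero_add] at h1
  refine le_trans ?_ h1
  have hy : y ∈ A := (hmem y).2 le_rfl
  have hz : z ∉ A := fun hc => absurd ((hmem z).1 hc) (not_le.2 h)
  have hnn : ∀ u ∈ A, ∀ w ∈ (G.neighborFinset u).filter (· ∉ A), 0 ≤ f u - f w := by
    intro u hu w hw
    rw [Finset.mem_filter] at hw
    have h5 := (hmem u).1 hu
    have h6 : f w < f y := not_le.1 fun hc => hw.2 ((hmem w).2 hc)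
    linarith
  calc f y - f z ≤ ∑ w ∈ (G.neighborFinset y).filter (· ∉ A), (f y - f w) :=
        Finset.single_le_sum (f := fun w => f y - f w) (hnn y hy)
          (by rw [Finset.mem_filter, SimpleGraph.mem_neighborFinset]; exact ⟨hyz, hz⟩)
    _ ≤ _ := Finset.single_le_sum
        (f := fun u => ∑ w ∈ (G.neighborFinset u).filter (· ∉ A), (f u - f w))
        (fun u hu => Finset.sum_nonneg (hnn u hu)) hy

/-- mass bound -/
theorem HH_mass (hd : ∀ v, 0 < G.degree v) (x : V) (n : ℕ) (F : Finset V) :
    ∑ y ∈ F, G.degree y * HH G x n y ≤ n * G.degree x := by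
  classical
  induction n generalizing F with
  | zero => simp [HH]
  | succ n ih =>
    have h1 : ∀ y ∈ F, G.degree y * HH G x (n + 1) y =
        (if y = x then (G.degree x : ℝ) else 0) + ∑ w ∈ G.neighborFinset y, HH G x n w := by
      intro y _
      have hd' : (0:ℝ) < G.degree y := by exact_mod_cast hd y
      rw [HH, mul_add]
      unfold av
      rw [mul_div_cancel₀ _ hd'.ne']
      split_ifs with h
      · subst h; ring
      · ring
    rw [Finset.sum_congr rfl h1, Finset.sum_add_distrib]
    have h2 : ∑ y ∈ F, (if y = x then (G.degree x : ℝ) else 0) ≤ G.degree x := by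
      rw [Finset.sum_ite_eq']
      split_ifs
      · exact le_rfl
      · positivity
    set N := F.biUnion fun y => G.neighborFinset y with hN
    have h3 : ∑ y ∈ F, ∑ w ∈ G.neighborFinset y, HH G x n w ≤ ∑ w ∈ N, G.degree w * HH G x n w := by
      have e1 : ∀ y ∈ F, ∑ w ∈ G.neighborFinset y, HH G x n w =
          ∑ w ∈ N, if G.Adj y w then HH G x n w else 0 := by
        intro y hy
        rw [← Finset.sum_filter]
        apply Finset.sum_congr _ (fun _ _ => rfl)
        ext w
        simp only [Finset.mem_filter, SimpleGraph.mem_neighborFinset, hN, Finset.mem_biUnion]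
        exact ⟨fun h => ⟨⟨y, hy, h⟩, h⟩, fun h => h.2⟩
      rw [Finset.sum_congr rfl e1, Finset.sum_comm]
      apply Finset.sum_le_sum
      intro w _
      rw [← Finset.sum_filter, Finset.sum_const, nsmul_eq_mul]
      apply mul_le_mul_of_nonneg_right _ (HH_nonneg x n w)
      rw [← SimpleGraph.card_neighborFinset_eq_degree]
      exact_mod_cast Finset.card_le_card fun y hy => by
        rw [Finset.mem_filter] at hy
        rw [SimpleGraph.mem_neighborFinset]
        exact hy.2.symm
    have h4 := ih N
    push_cast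
    linarith

theorem sum_Icc_id (m : ℕ) : ∑ i ∈ Finset.Icc 1 m, (i:ℝ) = m * (m + 1) / 2 := by
  induction m with
  | zero => simp
  | succ k ih =>
    rw [Finset.sum_Icc_succ_top (by omega), ih]
    push_cast; ring

/-- the Green function bound, with `D` a bound of the degrees -/
theorem HH_bound [Infinite V] (hc : G.Connected) (hd : ∀ v, 0 < G.degree v) {D : ℕ}
    (hD : ∀ v, G.degree v ≤ D) (x : V) (n : ℕ) : HH G x n x ≤ 3 * D * Real.sqrt n := by
  classical
  rcases Nat.eq_zero_or_pos n with rfl | hn
  · simp [HH]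
  have hD0 : (0:ℝ) < D := by
    have := (hd x).trans_le (hD x)
    exact_mod_cast this
  set f := HH G x n with hf
  obtain ⟨z, hz⟩ : ∃ z, f z = 0 := by
    by_contra hcon
    push Not at hcon
    have : (Set.univ : Set V).Finite := (HH_support (G := G) x n).subset fun v _ => hcon v
    exact Set.infinite_univ this
  have hlip : ∀ y w, G.Adj y w → f y - f w ≤ D := fun y w h =>
    (HH_lip hd x n h).trans (by exact_mod_cast hD x)
  -- levels
  have hlev : ∀ i : ℕ, 1 ≤ i → (i:ℝ) * D ≤ f x → ∃ a, (i:ℝ) * D ≤ f a ∧ f a < (i + 1) * D := by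
    intro i hi hix
    obtain ⟨p⟩ := hc.preconnected x z
    have hzi : z ∉ {u | (i:ℝ) * D ≤ f u} := by
      simp only [Set.mem_setOf_eq, not_le, hz]
      have : (0:ℝ) < i := by exact_mod_cast hi
      positivity
    obtain ⟨d, -, hd1, hd2⟩ := p.exists_boundary_dart {u | (i:ℝ) * D ≤ f u} hix hzi
    refine ⟨d.fst, hd1, ?_⟩
    have h1 := hlip d.fst d.snd d.adj
    have h2 : f d.snd < i * D := not_le.1 hd2
    linarith
  set m := ⌊f x / D⌋₊ with hm
  have hfx0 : 0 ≤ f x := HH_nonneg x n x
  have hmle : (m:ℝ) * D ≤ f x := by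
    have := Nat.floor_le (div_nonneg hfx0 hD0.le)
    rwa [le_div_iff₀ hD0] at this
  have hmlt : f x < (m + 1) * D := by
    have := Nat.lt_floor_add_one (f x / D)
    rwa [div_lt_iff₀ hD0] at this
  have hlev' : ∀ i ∈ Finset.Icc 1 m, ∃ a, (i:ℝ) * D ≤ f a ∧ f a < (i + 1) * D := by
    intro i hi
    rw [Finset.mem_Icc] at hi
    apply hlev i hi.1
    refine le_trans ?_ hmle
    have : (i:ℝ) ≤ m := by exact_mod_cast hi.2
    gcongr
  choose! a ha using hlev'
  have hinj : Set.InjOn a (Finset.Icc 1 m : Finset ℕ) := by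
    intro i hi j hj hij
    have h1 := ha i hi
    have h2 := ha j hj
    rw [hij] at h1
    by_contra hne
    rcases lt_or_gt_of_ne hne with h | h
    · have : (i:ℝ) + 1 ≤ j := by exact_mod_cast h
      have h3 : ((i:ℝ) + 1) * D ≤ j * D := by gcongr
      linarith [h1.2, h2.1]
    · have : (j:ℝ) + 1 ≤ i := by exact_mod_cast h
      have h3 : ((j:ℝ) + 1) * D ≤ i * D := by gcongr
      linarith [h2.2, h1.1]
  have hmass := HH_mass (G := G) hd x n ((Finset.Icc 1 m).image a)
  rw [Finset.sum_image (fun i hi j hj h => hinj hi hj h)] at hmass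
  have hlow : ∑ i ∈ Finset.Icc 1 m, (i:ℝ) * D ≤ ∑ i ∈ Finset.Icc 1 m, G.degree (a i) * f (a i) := by
    apply Finset.sum_le_sum
    intro i hi
    have h1 : (1:ℝ) ≤ G.degree (a i) := by exact_mod_cast hd (a i)
    have h2 := (ha i hi).1
    have h3 : 0 ≤ f (a i) := HH_nonneg x n _
    nlinarith
  have hsum : ∑ i ∈ Finset.Icc 1 m, (i:ℝ) * D = m * (m + 1) / 2 * D := by
    rw [← Finset.sum_mul, sum_Icc_id]
  have hdx : (G.degree x : ℝ) ≤ D := by exact_mod_cast hD x
  have h5 : (m:ℝ) * (m + 1) / 2 * D ≤ n * D := by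
    rw [← hsum]
    refine hlow.trans (hmass.trans ?_)
    gcongr
  have h6 : (m:ℝ) * (m + 1) ≤ 2 * n := by
    have := le_of_mul_le_mul_right h5 hD0
    linarith
  have hs : Real.sqrt n ^ 2 = n := Real.sq_sqrt (by positivity)
  have hs1 : 1 ≤ Real.sqrt n := by
    rw [Real.one_le_sqrt]; exact_mod_cast hn
  have h7 : (m:ℝ) + 1 ≤ 3 * Real.sqrt n := by
    by_contra hcon
    push Not at hcon
    nlinarith
  calc f x ≤ (m + 1) * D := hmlt.le
    _ ≤ 3 * Real.sqrt n * D := by gcongr
    _ = 3 * D * Real.sqrt n := by ring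

end Pool.Agent.V1185.SP
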