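import Mathlib
import Pool.Agent.V1185.SP.Green

/-!
# Divisible sandpile: expectation over walk paths, local times
-/

open Finset MeasureTheory

namespace Pool.Agent.V1185.SP

variable {V : Type*} (G : SimpleGraph V) [G.LocallyFinite]

/-- expectation of a function of the first `n` positions of the walk started at `v` -/
noncomputable def Ex : ℕ → V → (List V → ℝ) → ℝ
  | 0, _, F => F []
  | n + 1, v, F => av G (fun w => Ex n w (fun l => F (v :: l))) v

variable {G}

theorem Ex_mono {F F' : List V → ℝ} {n : ℕ} (h : ∀ l : List V, l.length = n → F l ≤ F' l) (v : V) :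
    Ex G n v F ≤ Ex G n v F' := by
  induction n generalizing v F F' with
  | zero => exact h [] rfl
  | succ n ih =>
    simp only [Ex]
    exact av_mono (fun w => ih (fun l hl => h (v :: l) (by simp [hl])) w) v

theorem Ex_add (F F' : List V → ℝ) (n : ℕ) (v : V) :
    Ex G n v (fun l => F l + F' l) = Ex G n v F + Ex G n v F' := by
  induction n generalizing v F F' with
  | zero => rfl
  | succ n ih =>
    simp only [Ex, ih, av_add]

theorem Ex_mul (c : ℝ) (F : List V → ℝ) (n : ℕ) (v : V) :
    Ex G n v (fun l => c * F l) = c * Ex G n v F := by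
  induction n generalizing v F with
  | zero => rfl
  | succ n ih =>
    simp only [Ex, ih, av_mul]

theorem Ex_const (hd : ∀ v, 0 < G.degree v) (c : ℝ) (n : ℕ) (v : V) :
    Ex G n v (fun _ => c) = c := by
  induction n generalizing v with
  | zero => rfl
  | succ n ih =>
    simp only [Ex, ih, av_const (hd v)]

theorem Ex_sum {ι : Type*} (hd : ∀ v, 0 < G.degree v) (s : Finset ι) (F : ι → List V → ℝ) (n : ℕ)
    (v : V) : Ex G n v (fun l => ∑ i ∈ s, F i l) = ∑ i ∈ s, Ex G n v (F i) := by
  classical
  induction s using Finset.induction_on with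
  | empty => simp [Ex_const hd]
  | insert a s ha ih =>
    simp only [Finset.sum_insert ha, Ex_add, ih]

theorem Ex_take (hd : ∀ v, 0 < G.degree v) (F : List V → ℝ) {m n : ℕ} (h : m ≤ n) (v : V) :
    Ex G n v (fun l => F (l.take m)) = Ex G m v F := by
  induction m generalizing n v F with
  | zero => simp [Ex_const hd, Ex]
  | succ m ih =>
    obtain ⟨n, rfl⟩ : ∃ n', n = n' + 1 := ⟨n - 1, by omega⟩
    simp only [Ex, List.take_succ_cons]
    congr 1
    funext w
    exact ih (fun l => F (v :: l)) (by omega) w

theorem Ex_integrable {Ω : Type*} [MeasurableSpace Ω] {P : Measure Ω} (F : List V → Ω → ℝ)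
    (hF : ∀ l, Integrable (F l) P) (n : ℕ) (v : V) :
    Integrable (fun ω => Ex G n v (fun l => F l ω)) P := by
  induction n generalizing v F with
  | zero => exact hF []
  | succ n ih =>
    simp only [Ex, av]
    apply Integrable.div_const
    apply integrable_finset_sum
    intro w _
    exact ih (fun l => F (v :: l)) (fun l => hF _) w

theorem Ex_integral {Ω : Type*} [MeasurableSpace Ω] {P : Measure Ω} (F : List V → Ω → ℝ)
    (hF : ∀ l, Integrable (F l) P) (n : ℕ) (v : V) :
    ∫ ω, Ex G n v (fun l => F l ω) ∂P = Ex G n v (fun l => ∫ ω, F l ω ∂P) := by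
  induction n generalizing v F with
  | zero => rfl
  | succ n ih =>
    simp only [Ex, av]
    rw [integral_div, integral_finset_sum]
    · congr 1
      refine Finset.sum_congr rfl fun w _ => ?_
      exact ih (fun l => F (v :: l)) (fun l => hF _) w
    · intro w _
      exact Ex_integrable (fun l => F (v :: l)) (fun l => hF _) n w

/-! ## local times -/

theorem Ex_choose [DecidableEq V] (hd : ∀ v, 0 < G.degree v) (x : V) {B : ℝ} {n : ℕ}
    (hB : HH G x n x ≤ B) (m : ℕ) (k : ℕ) (hk : k ≤ n) (w : V) :
    Ex G k w (fun l => ((l.count x).choose (m + 1) : ℝ)) ≤ B ^ m * HH G x k w := by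
  have hB0 : 0 ≤ B := (HH_nonneg x n x).trans hB
  have hHB : ∀ k ≤ n, ∀ u, HH G x k u ≤ B := fun k hk u =>
    (HH_le_at hd x k u).trans ((HH_monotone x x hk).trans hB)
  induction m generalizing k w with
  | zero =>
    induction k generalizing w with
    | zero => simp [Ex, HH]
    | succ k ihk =>
      simp only [zero_add, Nat.choose_one_right, pow_zero, one_mul] at ihk ⊢
      simp only [Ex, HH]
      by_cases hwx : w = x
      · subst hwx
        simp only [List.count_cons_self, if_true]
        push_cast
        have e : ∀ u, Ex G k u (fun l => ((l.count w : ℝ) + 1)) =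
            Ex G k u (fun l => (l.count w : ℝ)) + 1 := fun u => by
          rw [Ex_add, Ex_const hd]
        simp only [e, av_add, av_const (hd w)]
        have := av_mono (G := G) (fun u => ihk (by omega) u) w
        linarith
      · simp only [List.count_cons_of_ne hwx, hwx, if_false, zero_add]
        exact av_mono (fun u => ihk (by omega) u) w
  | succ m ihm =>
    induction k generalizing w with
    | zero => simp [Ex, HH]
    | succ k ihk =>
      simp only [Ex, HH]
      by_cases hwx : w = x
      · subst hwx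
        simp only [List.count_cons_self, if_true]
        have e : ∀ u, Ex G k u (fun l => (((l.count w + 1).choose (m + 1 + 1) : ℕ) : ℝ)) =
            Ex G k u (fun l => (((l.count w).choose (m + 1) : ℕ) : ℝ)) +
            Ex G k u (fun l => (((l.count w).choose (m + 1 + 1) : ℕ) : ℝ)) := fun u => by
          rw [← Ex_add]
          congr 1
          funext l
          rw [Nat.choose_succ_succ]
          push_cast
          ring
        simp only [e, av_add]
        have h1 := av_mono (G := G) (fun u => ihk (by omega) u) w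
        rw [av_mul] at h1
        have h2 : av G (fun u => Ex G k u (fun l => (((l.count w).choose (m + 1) : ℕ) : ℝ))) w
            ≤ B ^ (m + 1) := by
          calc _ ≤ av G (fun _ => B ^ (m + 1)) w := by
                apply av_mono
                intro u
                refine (ihm k (by omega) u).trans ?_
                rw [pow_succ]
                exact mul_le_mul_of_nonneg_left (hHB k (by omega) u) (by positivity)
            _ = _ := av_const (hd w) _
        rw [mul_add, mul_one]
        linarith
      · simp only [List.count_cons_of_ne hwx, hwx, if_false, zero_add]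
        have h1 := av_mono (G := G) (fun u => ihk (by omega) u) w
        rwa [av_mul] at h1

theorem choose_formulas (c : ℕ) : ((c.choose 2 : ℕ) : ℝ) = c * (c - 1) / 2 ∧
    ((c.choose 3 : ℕ) : ℝ) = c * (c - 1) * (c - 2) / 6 ∧
    ((c.choose 4 : ℕ) : ℝ) = c * (c - 1) * (c - 2) * (c - 3) / 24 := by
  induction c with
  | zero => simp
  | succ c ih =>
    obtain ⟨h2, h3, h4⟩ := ih
    refine ⟨?_, ?_, ?_⟩
    · rw [Nat.choose_succ_succ' c 1, Nat.choose_one_right]; push_cast; rw [h2]; ring
    · rw [Nat.choose_succ_succ' c 2]; push_cast; rw [h2, h3]; ring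
    · rw [Nat.choose_succ_succ' c 3]; push_cast; rw [h3, h4]; ring

theorem pow_four_choose (c : ℕ) : ((c:ℝ) + 1) ^ 4 = 1 + 15 * ((c.choose 1 : ℕ) : ℝ) +
    50 * ((c.choose 2 : ℕ) : ℝ) + 60 * ((c.choose 3 : ℕ) : ℝ) + 24 * ((c.choose 4 : ℕ) : ℝ) := by
  obtain ⟨h2, h3, h4⟩ := choose_formulas c
  rw [h2, h3, h4, Nat.choose_one_right]
  ring

theorem Ex_pow_four [DecidableEq V] (hd : ∀ v, 0 < G.degree v) (x : V) {B : ℝ} (hB1 : 1 ≤ B) {n : ℕ}
    (hB : HH G x n x ≤ B) (k : ℕ) (hk : k ≤ n) (w : V) :
    Ex G k w (fun l => ((l.count x : ℝ) + 1) ^ 4) ≤ 150 * B ^ 4 := by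
  have hHB : HH G x k w ≤ B :=
    (HH_le_at hd x k w).trans ((HH_monotone x x hk).trans hB)
  have hb : ∀ m : ℕ, Ex G k w (fun l => ((l.count x).choose (m + 1) : ℝ)) ≤ B ^ (m + 1) := by
    intro m
    refine (Ex_choose hd x hB m k hk w).trans ?_
    rw [pow_succ]
    exact mul_le_mul_of_nonneg_left hHB (by positivity)
  simp only [pow_four_choose, Ex_add, Ex_mul, Ex_const hd]
  have h1 := hb 0
  have h2 := hb 1
  have h3 := hb 2
  have h4 := hb 3
  norm_num at h1 h2 h3 h4
  have p1 : B ≤ B ^ 4 := le_self_pow₀ hB1 (by norm_num)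
  have p2 : B ^ 2 ≤ B ^ 4 := pow_le_pow_right₀ hB1 (by norm_num)
  have p3 : B ^ 3 ≤ B ^ 4 := pow_le_pow_right₀ hB1 (by norm_num)
  have p0 : 1 ≤ B ^ 4 := one_le_pow₀ hB1
  simp only [Nat.choose_one_right]
  linarith

/-- auxiliary additive functional -/
noncomputable def WW [DecidableEq V] : List V → ℝ
  | [] => 0
  | v :: l => WW l + 5 * ((l.count v : ℝ) + 1) ^ 4

theorem sum_pow_five_le [DecidableEq V] (l : List V) (F : Finset V) :
    ∑ y ∈ F, ((l.count y : ℝ)) ^ 5 ≤ WW l := by
  induction l with
  | nil => simp [WW]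
  | cons v l ih =>
    simp only [WW]
    have h1 : ∀ y ∈ F, (((v :: l).count y : ℝ)) ^ 5 ≤ (l.count y : ℝ) ^ 5 +
        if y = v then 5 * ((l.count v : ℝ) + 1) ^ 4 else 0 := by
      intro y _
      by_cases h : y = v
      · subst h
        simp only [List.count_cons_self, if_true]
        push_cast
        have hc : (0:ℝ) ≤ (l.count y : ℝ) := by positivity
        have : 0 ≤ 10 * (l.count y : ℝ) ^ 3 + 20 * (l.count y : ℝ) ^ 2 + 15 * (l.count y : ℝ) + 4 := by
          positivity
        nlinarith
      · rw [List.count_cons_of_ne (fun h' => h h'.symm), if_neg h, add_zero]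
    refine (Finset.sum_le_sum h1).trans ?_
    rw [Finset.sum_add_distrib, Finset.sum_ite_eq']
    have h0 : 0 ≤ 5 * ((l.count v : ℝ) + 1) ^ 4 := by positivity
    split_ifs <;> linarith

theorem sum_count_le [DecidableEq V] (l : List V) (F : Finset V) :
    ∑ y ∈ F, (l.count y : ℝ) ≤ l.length := by
  induction l with
  | nil => simp
  | cons v l ih =>
    have h1 : ∀ y ∈ F, ((v :: l).count y : ℝ) ≤ (l.count y : ℝ) + if y = v then 1 else 0 := by
      intro y _
      by_cases h : y = v
      · subst h
        simp
      · rw [List.count_cons_of_ne (fun h' => h h'.symm), if_neg h, add_zero]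
    refine (Finset.sum_le_sum h1).trans ?_
    rw [Finset.sum_add_distrib, Finset.sum_ite_eq', List.length_cons]
    push_cast
    split_ifs <;> linarith

theorem Ex_WW [DecidableEq V] (hd : ∀ v, 0 < G.degree v) {B : ℝ} (hB1 : 1 ≤ B) {n : ℕ}
    (hB : ∀ x, HH G x n x ≤ B) (k : ℕ) (hk : k ≤ n) (w : V) :
    Ex G k w WW ≤ k * (750 * B ^ 4) := by
  induction k generalizing w with
  | zero => simp [Ex, WW]
  | succ k ih =>
    simp only [Ex, WW, Ex_add, Ex_mul, av_add]
    have h1 : av G (fun u => Ex G k u WW) w ≤ k * (750 * B ^ 4) := by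
      calc _ ≤ av G (fun _ => k * (750 * B ^ 4)) w := av_mono (fun u => ih (by omega) u) w
        _ = _ := av_const (hd w) _
    have h2 : av G (fun u => 5 * Ex G k u (fun l => ((l.count w : ℝ) + 1) ^ 4)) w ≤
        750 * B ^ 4 := by
      calc _ ≤ av G (fun _ => 750 * B ^ 4) w := av_mono (fun u => by
              have := Ex_pow_four hd w hB1 (hB w) k (by omega) u
              linarith) w
        _ = _ := av_const (hd w) _
    push_cast
    linarith

theorem Ex_five [DecidableEq V] [Infinite V] (hc : G.Connected) (hd : ∀ v, 0 < G.degree v) {D : ℕ}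
    (hD : ∀ v, G.degree v ≤ D) (n : ℕ) (v : V) :
    Ex G n v (fun l => ∑ y ∈ l.toFinset, (l.count y : ℝ) ^ 5) ≤ 60750 * D ^ 4 * n ^ 3 := by
  rcases Nat.eq_zero_or_pos n with rfl | hn
  · simp [Ex]
  have hs : Real.sqrt n ^ 2 = n := Real.sq_sqrt (by positivity)
  have hs1 : 1 ≤ Real.sqrt n := by
    rw [Real.one_le_sqrt]; exact_mod_cast hn
  have hD1 : (1:ℝ) ≤ D := by exact_mod_cast (hd v).trans_le (hD v)
  have hB1 : 1 ≤ 3 * D * Real.sqrt n := by nlinarith
  refine (Ex_mono (F' := WW) (fun l _ => sum_pow_five_le l _) v).trans ?_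
  refine (Ex_WW hd hB1 (fun x => HH_bound hc hd hD x n) n le_rfl v).trans (le_of_eq ?_)
  have h4 : Real.sqrt n ^ 4 = (n:ℝ) ^ 2 := by
    calc Real.sqrt n ^ 4 = (Real.sqrt n ^ 2) ^ 2 := by ring
      _ = _ := by rw [hs]
  calc (n:ℝ) * (750 * (3 * D * Real.sqrt n) ^ 4) = n * 750 * 81 * D ^ 4 * Real.sqrt n ^ 4 := by ring
    _ = _ := by rw [h4]; ring

/-! ## maxima of prefix sums -/

/-- maximum of the prefix sums -/
noncomputable def mp (η : V → ℝ) : List V → ℝ
  | [] => 0
  | x :: l => max 0 (η x + mp η l)

variable (G) in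
/-- the odometer recursion -/
noncomputable def UU (η : V → ℝ) : ℕ → V → ℝ
  | 0 => fun _ => 0
  | n + 1 => fun v => max 0 (η v + av G (UU η n) v)

theorem mp_nonneg (η : V → ℝ) (l : List V) : 0 ≤ mp η l := by
  cases l with
  | nil => exact le_rfl
  | cons x l => exact le_max_left _ _

theorem mp_le (η : V → ℝ) (l : List V) {c : ℝ}
    (h : ∀ k ≤ l.length, ((l.take k).map η).sum ≤ c) : mp η l ≤ c := by
  induction l generalizing c with
  | nil => simpa [mp] using h 0 le_rfl
  | cons x l ih =>
    simp only [mp]
    apply max_le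
    · simpa using h 0 (Nat.zero_le _)
    · have := ih (c := c - η x) (fun k hk => by
        have := h (k + 1) (by simpa using hk)
        simp only [List.take_succ_cons, List.map_cons, List.sum_cons] at this
        linarith)
      linarith

theorem UU_le (hd : ∀ v, 0 < G.degree v) (η : V → ℝ) (n : ℕ) (v : V) :
    UU G η n v ≤ Ex G n v (mp η) := by
  induction n generalizing v with
  | zero => exact le_rfl
  | succ n ih =>
    simp only [UU, Ex, mp]
    apply max_le
    · apply av_nonneg
      intro w
      calc (0:ℝ) = Ex G n w (fun _ => 0) := (Ex_const hd 0 n w).symm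
        _ ≤ _ := Ex_mono (fun l _ => le_max_left _ _) w
    · calc η v + av G (UU G η n) v = av G (fun w => η v + UU G η n w) v := by
            rw [av_add (fun _ => η v) (UU G η n) v, av_const (hd v)]
        _ ≤ av G (fun w => Ex G n w (fun l => max 0 (η v + mp η l))) v := by
            apply av_mono
            intro w
            calc η v + UU G η n w ≤ η v + Ex G n w (mp η) := by have := ih w; linarith
              _ = Ex G n w (fun l => η v + mp η l) := by
                  rw [Ex_add (fun _ => η v) (mp η), Ex_const hd]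
              _ ≤ _ := Ex_mono (fun l _ => le_max_right _ _) w

end Pool.Agent.V1185.SP
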