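import Mathlib
import Pool.Agent.V1185.SP.Walk

/-!
# Divisible sandpile: the estimate of one block of prefix sums along a fixed path
-/

open Finset MeasureTheory ProbabilityTheory

namespace Pool.Agent.V1185.SP

/-- truncated variable -/
noncomputable def XX (δ' R θ L d z : ℝ) : ℝ :=
  if R < L then -δ' else if L * max z 0 ≤ θ then z / d else 0

theorem XX_meas (δ' R θ L d : ℝ) : Measurable (XX δ' R θ L d) := by
  unfold XX
  refine Measurable.ite (MeasurableSet.const _) measurable_const ?_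
  refine Measurable.ite ?_ (by fun_prop) measurable_const
  exact measurableSet_le (by fun_prop) measurable_const

theorem exp_ineq {z b : ℝ} (hb : 0 ≤ b) (h : z ≤ b) :
    Real.exp z ≤ 1 + z + z ^ 2 * Real.exp b := by
  rcases le_total z 0 with hz | hz
  · have h1 := Real.quadratic_le_exp_of_nonneg (x := -z) (by linarith)
    have h2 : Real.exp z * Real.exp (-z) = 1 := by rw [← Real.exp_add]; simp
    have h3 : 0 < Real.exp z := Real.exp_pos z
    have h4 : Real.exp z * (1 + -z + (-z) ^ 2 / 2) ≤ 1 :=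
      (mul_le_mul_of_nonneg_left h1 h3.le).trans h2.le
    have h5 : Real.exp z ≤ 1 + z + z ^ 2 / 2 := by
      by_contra hc
      push Not at hc
      have h6 : 0 < 1 + -z + (-z) ^ 2 / 2 := by nlinarith [sq_nonneg z]
      have h7 : (1 + z + z ^ 2 / 2) * (1 + -z + (-z) ^ 2 / 2) < 1 :=
        lt_of_lt_of_le (mul_lt_mul_of_pos_right hc h6) h4
      nlinarith [sq_nonneg (z ^ 2)]
    have h8 : 1 ≤ Real.exp b := Real.one_le_exp hb
    nlinarith [sq_nonneg z]
  · have h1 := Real.add_one_le_exp (-z)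
    have h2 : Real.exp z * Real.exp (-z) = 1 := by rw [← Real.exp_add]; simp
    have h3 : 0 < Real.exp z := Real.exp_pos z
    have h4 : (-z + 1) * (1 + z) ≤ Real.exp (-z) * (1 + z) := by gcongr
    have h5 := mul_le_mul_of_nonneg_left h4 h3.le
    have h5' : Real.exp z * (Real.exp (-z) * (1 + z)) = 1 + z := by
      rw [← mul_assoc, h2, one_mul]
    rw [h5'] at h5
    have h6 : z ^ 2 * Real.exp z ≤ z ^ 2 * Real.exp b := by gcongr
    nlinarith

variable {Ω : Type*} [MeasurableSpace Ω] {P : Measure Ω} [IsProbabilityMeasure P]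

theorem XX_le {δ' R θ L d z c : ℝ} (hδ : 0 ≤ δ') (hθ : 0 ≤ θ) (hd : 1 ≤ d) (hc : 0 ≤ c) (hcL : c ≤ L) :
    c * XX δ' R θ L d z ≤ θ := by
  unfold XX
  split_ifs with h1 h2
  · nlinarith
  · refine le_trans ?_ h2
    have h3 : z / d ≤ max z 0 := by
      rw [div_le_iff₀ (by linarith)]
      have : z ≤ max z 0 := le_max_left _ _
      have : 0 ≤ max z 0 := le_max_right _ _
      nlinarith
    have h4 : 0 ≤ max z 0 := le_max_right _ _
    nlinarith
  · simpa using hθ

theorem mgf_one {z : Ω → ℝ} (hz : Measurable z) (h2 : Integrable (fun ω => z ω ^ 2) P)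
    (h1 : Integrable z P) {δ : ℝ} (hδ : 0 < δ) (hmean : ∫ ω, z ω ∂P = -δ) {D d : ℝ}
    (hd1 : 1 ≤ d) (hdD : d ≤ D) {h R θ L c : ℝ} (hh : 0 < h) (hθ : 0 ≤ θ) (hc : 0 ≤ c)
    (hcL : c ≤ L)
    (hcond : h * R * Real.exp (h * θ) * (∫ ω, z ω ^ 2 ∂P) ≤ δ / D / 2) :
    ∫ ω, Real.exp (h * (c * XX (δ / D) R θ L d (z ω))) ∂P ≤ Real.exp (-(h * c * (δ / D / 2))) := by
  have hD : 0 < D := by linarith
  have hδ' : 0 < δ / D := by positivity
  by_cases hRL : R < L
  · simp only [XX, hRL, if_true, integral_const, probReal_univ, one_smul]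
    apply Real.exp_le_exp.2
    have : 0 ≤ h * c * (δ / D) := by positivity
    nlinarith
  · have hLR : L ≤ R := not_lt.1 hRL
    set X : Ω → ℝ := fun ω => XX (δ / D) R θ L d (z ω) with hX
    have hXm : Measurable X := (XX_meas _ _ _ _ _).comp hz
    have hXz : ∀ ω, X ω ≤ z ω / d := by
      intro ω
      simp only [hX, XX, hRL, if_false]
      split_ifs with hle
      · exact le_rfl
      · have : 0 < max (z ω) 0 := by
          by_contra hcon
          have h0 : max (z ω) 0 = 0 := le_antisymm (not_lt.1 hcon) (le_max_right _ _)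
          rw [h0, mul_zero] at hle
          exact hle hθ
        have : 0 < z ω := by
          rcases lt_max_iff.1 this with h | h
          · exact h
          · exact absurd h (lt_irrefl _)
        positivity
    have hXsq : ∀ ω, X ω ^ 2 ≤ z ω ^ 2 := by
      intro ω
      simp only [hX, XX, hRL, if_false]
      split_ifs with hle
      · rw [div_pow]
        apply div_le_self (sq_nonneg _)
        nlinarith
      · have := sq_nonneg (z ω); simpa using this
    have hXabs : ∀ ω, |X ω| ≤ |z ω| := fun ω => sq_le_sq.1 (hXsq ω)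
    have hXint : Integrable X P := h1.mono hXm.aestronglyMeasurable
      (Filter.Eventually.of_forall fun ω => by simpa [Real.norm_eq_abs] using hXabs ω)
    have hpt : ∀ ω, Real.exp (h * (c * X ω)) ≤ 1 + h * c * X ω + (h * c) ^ 2 * Real.exp (h * θ) * z ω ^ 2 := by
      intro ω
      have e1 : h * (c * X ω) ≤ h * θ := by
        have := XX_le (δ' := δ / D) (R := R) (z := z ω) hδ'.le hθ hd1 hc hcL
        gcongr
      have e2 := exp_ineq (by positivity : 0 ≤ h * θ) e1
      refine e2.trans ?_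
      have e3 : (h * (c * X ω)) ^ 2 * Real.exp (h * θ) = (h * c) ^ 2 * Real.exp (h * θ) * X ω ^ 2 := by
        ring
      rw [e3]
      have e4 : (h * c) ^ 2 * Real.exp (h * θ) * X ω ^ 2 ≤
          (h * c) ^ 2 * Real.exp (h * θ) * z ω ^ 2 := by
        have := hXsq ω
        gcongr
      linarith
    have hint : Integrable (fun ω => 1 + h * c * X ω + (h * c) ^ 2 * Real.exp (h * θ) * z ω ^ 2) P :=
      ((integrable_const _).add (hXint.const_mul _)).add (h2.const_mul _)
    have hle : ∫ ω, Real.exp (h * (c * X ω)) ∂P ≤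
        ∫ ω, (1 + h * c * X ω + (h * c) ^ 2 * Real.exp (h * θ) * z ω ^ 2) ∂P :=
      integral_mono_of_nonneg (Filter.Eventually.of_forall fun ω => (Real.exp_pos _).le) hint
        (Filter.Eventually.of_forall hpt)
    refine hle.trans ?_
    have hcalc : ∫ ω, (1 + h * c * X ω + (h * c) ^ 2 * Real.exp (h * θ) * z ω ^ 2) ∂P =
        1 + h * c * ∫ ω, X ω ∂P + (h * c) ^ 2 * Real.exp (h * θ) * ∫ ω, z ω ^ 2 ∂P := by
      rw [integral_add (f := fun ω => 1 + h * c * X ω)
        (g := fun ω => (h * c) ^ 2 * Real.exp (h * θ) * z ω ^ 2)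
        ((integrable_const _).add (hXint.const_mul _)) (h2.const_mul _),
        integral_add (f := fun _ => (1:ℝ)) (g := fun ω => h * c * X ω)
        (integrable_const _) (hXint.const_mul _), integral_const, probReal_univ,
        integral_const_mul, integral_const_mul, one_smul]
    rw [hcalc]
    have hEX : ∫ ω, X ω ∂P ≤ -(δ / D) := by
      calc ∫ ω, X ω ∂P ≤ ∫ ω, z ω / d ∂P := integral_mono hXint (h1.div_const d) hXz
        _ = -(δ / d) := by rw [integral_div, hmean]; ring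
        _ ≤ -(δ / D) := by
          have : δ / D ≤ δ / d := by gcongr
          linarith
    set V0 := ∫ ω, z ω ^ 2 ∂P with hV0
    have hV0n : 0 ≤ V0 := integral_nonneg fun ω => sq_nonneg _
    have hcR : c ≤ R := hcL.trans hLR
    have k1 : (h * c) ^ 2 * Real.exp (h * θ) * V0 ≤ h * c * (δ / D / 2) := by
      calc (h * c) ^ 2 * Real.exp (h * θ) * V0 = h * c * (h * c * Real.exp (h * θ) * V0) := by ring
        _ ≤ h * c * (h * R * Real.exp (h * θ) * V0) := by gcongr
        _ ≤ _ := by gcongr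
    have k2 : h * c * ∫ ω, X ω ∂P ≤ h * c * (-(δ / D)) := by gcongr
    have k3 := Real.add_one_le_exp (-(h * c * (δ / D / 2)))
    linarith

theorem int_exp {V : Type*} {ζ : V → Ω → ℝ} (hm : ∀ y, Measurable (ζ y))
    {δ' h R θ : ℝ} (hδ : 0 ≤ δ') (hh : 0 < h) (hθ : 0 ≤ θ) (d : V → ℝ) (hd1 : ∀ y, 1 ≤ d y)
    (F : Finset V) (c L : V → ℝ) (hc : ∀ y, 0 ≤ c y) (hcL : ∀ y, c y ≤ L y) :
    Integrable (fun ω => Real.exp (h * ∑ y ∈ F, c y * XX δ' R θ (L y) (d y) (ζ y ω))) P := by
  refine Integrable.of_bound (C := Real.exp (h * ∑ y ∈ F, θ)) ?_ ?_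
  · have : ∀ y, Measurable fun ω => XX δ' R θ (L y) (d y) (ζ y ω) := fun y =>
      (XX_meas _ _ _ _ _).comp (hm y)
    have h3 : Measurable fun ω => ∑ y ∈ F, c y * XX δ' R θ (L y) (d y) (ζ y ω) :=
      Finset.measurable_fun_sum F fun y _ => (this y).const_mul _
    exact (h3.const_mul h).exp.aestronglyMeasurable
  · refine Filter.Eventually.of_forall fun ω => ?_
    rw [Real.norm_eq_abs, abs_of_pos (Real.exp_pos _)]
    apply Real.exp_le_exp.2
    gcongr with y _
    exact XX_le hδ hθ (hd1 y) (hc y) (hcL y)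

theorem mgf_T {V : Type*} {ζ : V → Ω → ℝ} (hm : ∀ y, Measurable (ζ y)) (hi : iIndepFun ζ P)
    {o : V} (hid : ∀ y, IdentDistrib (ζ y) (ζ o) P P)
    (h2 : Integrable (fun ω => ζ o ω ^ 2) P) (h1 : Integrable (ζ o) P)
    {δ : ℝ} (hδ : 0 < δ) (hmean : ∫ ω, ζ o ω ∂P = -δ) {D : ℝ} (d : V → ℝ)
    (hd1 : ∀ y, 1 ≤ d y) (hdD : ∀ y, d y ≤ D) {h R θ : ℝ} (hh : 0 < h) (hθ : 0 ≤ θ)
    (hcond : h * R * Real.exp (h * θ) * (∫ ω, ζ o ω ^ 2 ∂P) ≤ δ / D / 2)
    (F : Finset V) (c L : V → ℝ) (hc : ∀ y, 0 ≤ c y) (hcL : ∀ y, c y ≤ L y) :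
    ∫ ω, Real.exp (h * ∑ y ∈ F, c y * XX (δ / D) R θ (L y) (d y) (ζ y ω)) ∂P ≤
      Real.exp (-(h * (∑ y ∈ F, c y) * (δ / D / 2))) := by
  set X : V → Ω → ℝ := fun y ω => c y * XX (δ / D) R θ (L y) (d y) (ζ y ω) with hX
  have hmX : ∀ y, Measurable fun z => c y * XX (δ / D) R θ (L y) (d y) z := fun y =>
    (XX_meas _ _ _ _ _).const_mul _
  have hiX : iIndepFun X P := hi.comp (fun y z => c y * XX (δ / D) R θ (L y) (d y) z) hmX
  have hXm : ∀ y, Measurable (X y) := fun y => (hmX y).comp (hm y)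
  have e1 := hiX.mgf_sum (t := h) hXm F
  have e2 : ∫ ω, Real.exp (h * ∑ y ∈ F, c y * XX (δ / D) R θ (L y) (d y) (ζ y ω)) ∂P =
      mgf (∑ y ∈ F, X y) P h := by
    unfold mgf
    simp [hX, Finset.sum_apply]
  rw [e2, e1]
  have e3 : Real.exp (-(h * (∑ y ∈ F, c y) * (δ / D / 2))) =
      ∏ y ∈ F, Real.exp (-(h * c y * (δ / D / 2))) := by
    rw [← Real.exp_sum, Finset.sum_neg_distrib, Finset.mul_sum, Finset.sum_mul]
  rw [e3]
  apply Finset.prod_le_prod
  · intro y _
    exact mgf_nonneg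
  · intro y _
    have hidsq : ∫ ω, ζ y ω ^ 2 ∂P = ∫ ω, ζ o ω ^ 2 ∂P :=
      ((hid y).comp (u := fun z : ℝ => z ^ 2) (by fun_prop)).integral_eq
    have hi2 : Integrable (fun ω => ζ y ω ^ 2) P :=
      ((hid y).comp (u := fun z : ℝ => z ^ 2) (by fun_prop)).integrable_iff.2 h2
    exact mgf_one (hm y) hi2 ((hid y).integrable_iff.2 h1) hδ ((hid y).integral_eq.trans hmean)
      (hd1 y) (hdD y) hh hθ (hc y) (hcL y) (by rw [hidsq]; exact hcond)

/-- the bound of a block -/
noncomputable def gg {V : Type*} [DecidableEq V] (δ' R θ : ℝ) (d : V → ℝ) (N : ℕ) (l : List V)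
    (z : V → ℝ) : ℝ :=
  (∑ y ∈ l.toFinset, (if R < (l.count y : ℝ) then (l.count y : ℝ) * (max (z y) 0 + δ') else 0))
  + (∑ y ∈ l.toFinset, (if θ < (l.count y : ℝ) * max (z y) 0 then
      (l.count y : ℝ) * max (z y) 0 else 0))
  + ∑ k ∈ Finset.Ico N (l.length + 1), max (∑ y ∈ l.toFinset, ((l.take k).count y : ℝ) *
      XX δ' R θ (l.count y) (d y) (z y)) 0

theorem pref_sum {V : Type*} [DecidableEq V] (l : List V) (k : ℕ) (η : V → ℝ) :
    ((l.take k).map η).sum = ∑ y ∈ l.toFinset, ((l.take k).count y : ℝ) * η y := by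
  rw [Finset.sum_list_map_count]
  simp only [nsmul_eq_mul]
  apply Finset.sum_subset
  · intro y hy
    rw [List.mem_toFinset] at hy ⊢
    exact List.mem_of_mem_take hy
  · intro y _ hy
    rw [List.mem_toFinset] at hy
    rw [List.count_eq_zero_of_not_mem hy]
    simp

theorem count_take_le {V : Type*} [DecidableEq V] (l : List V) (k : ℕ) (y : V) :
    ((l.take k).count y : ℝ) ≤ l.count y := by
  exact_mod_cast (List.take_sublist k l).count_le y

theorem gg_nonneg {V : Type*} [DecidableEq V] {δ' R θ : ℝ} (hδ : 0 ≤ δ') (d : V → ℝ) (N : ℕ)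
    (l : List V) (z : V → ℝ) : 0 ≤ gg δ' R θ d N l z := by
  have hz : ∀ y, 0 ≤ max (z y) 0 := fun y => le_max_right _ _
  unfold gg
  refine add_nonneg (add_nonneg ?_ ?_) ?_
  · refine Finset.sum_nonneg fun y _ => ?_
    have := hz y
    split_ifs <;> positivity
  · refine Finset.sum_nonneg fun y _ => ?_
    have := hz y
    split_ifs <;> positivity
  · exact Finset.sum_nonneg fun k _ => le_max_right _ _

theorem gg_ge {V : Type*} [DecidableEq V] {δ' R θ : ℝ} (hδ : 0 ≤ δ') (d : V → ℝ)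
    (hd1 : ∀ y, 1 ≤ d y) (N : ℕ) (l : List V) (z : V → ℝ) {k : ℕ}
    (hk : k ∈ Finset.Ico N (l.length + 1)) :
    ((l.take k).map (fun y => z y / d y)).sum ≤ gg δ' R θ d N l z := by
  have hz : ∀ y, 0 ≤ max (z y) 0 := fun y => le_max_right _ _
  rw [pref_sum]
  unfold gg
  have h1 : max (∑ y ∈ l.toFinset, ((l.take k).count y : ℝ) *
      XX δ' R θ (l.count y) (d y) (z y)) 0 ≤
      ∑ k ∈ Finset.Ico N (l.length + 1), max (∑ y ∈ l.toFinset, ((l.take k).count y : ℝ) *
      XX δ' R θ (l.count y) (d y) (z y)) 0 :=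
    Finset.single_le_sum (f := fun k => max (∑ y ∈ l.toFinset, ((l.take k).count y : ℝ) *
      XX δ' R θ (l.count y) (d y) (z y)) 0) (fun k _ => le_max_right _ _) hk
  refine le_trans ?_ (add_le_add_right h1 _)
  refine le_trans ?_ (add_le_add_right (le_max_left _ _) _)
  rw [← Finset.sum_add_distrib, ← Finset.sum_add_distrib]
  apply Finset.sum_le_sum
  intro y _
  set c : ℝ := ((l.take k).count y : ℝ) with hc
  set L : ℝ := (l.count y : ℝ) with hL
  have hc0 : 0 ≤ c := by positivity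
  have hcL : c ≤ L := count_take_le l k y
  have hL0 : 0 ≤ L := hc0.trans hcL
  have h3 : z y / d y ≤ max (z y) 0 := by
    rw [div_le_iff₀ (by linarith [hd1 y])]
    have : z y ≤ max (z y) 0 := le_max_left _ _
    have := hz y
    have := hd1 y
    nlinarith
  have h4 : c * (z y / d y) ≤ L * max (z y) 0 := by
    have := hz y
    calc c * (z y / d y) ≤ c * max (z y) 0 := by gcongr
      _ ≤ _ := by gcongr
  have hLz : 0 ≤ L * max (z y) 0 := mul_nonneg hL0 (hz y)
  unfold XX
  by_cases hRL : R < L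
  · rw [if_pos hRL, if_pos hRL]
    have h5 : c * δ' ≤ L * δ' := by gcongr
    split_ifs <;> nlinarith
  · rw [if_neg hRL, if_neg hRL]
    by_cases hle : L * max (z y) 0 ≤ θ
    · rw [if_pos hle, if_neg (not_lt.2 hle)]
      simp
    · rw [if_neg hle, if_pos (not_le.1 hle)]
      simpa using h4

end Pool.Agent.V1185.SP
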