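import Mathlib
import Pool.Agent.V1185.SP.Block

/-!
# Divisible sandpile: the expected contribution of a block
-/

open Finset MeasureTheory ProbabilityTheory

namespace Pool.Agent.V1185.SP

variable {Ω : Type*} [MeasurableSpace Ω] {P : Measure Ω} [IsProbabilityMeasure P]

theorem XX_abs {δ' R θ L d z : ℝ} (hδ : 0 ≤ δ') (hd : 1 ≤ d) : |XX δ' R θ L d z| ≤ δ' + |z| := by
  unfold XX
  split_ifs
  · rw [abs_neg, abs_of_nonneg hδ]
    have := abs_nonneg z; linarith
  · rw [abs_div, abs_of_pos (by linarith : 0 < d)]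
    have := div_le_self (abs_nonneg z) hd
    linarith
  · have := abs_nonneg z
    simp; linarith

theorem XX_integrable {z : Ω → ℝ} (hz : Measurable z) (h1 : Integrable z P)
    {δ' R θ L d : ℝ} (hδ : 0 ≤ δ') (hd : 1 ≤ d) :
    Integrable (fun ω => XX δ' R θ L d (z ω)) P := by
  refine Integrable.mono' ((integrable_const δ').add h1.abs)
    ((XX_meas _ _ _ _ _).comp hz).aestronglyMeasurable (Filter.Eventually.of_forall fun ω => ?_)
  exact XX_abs hδ hd

theorem p2_meas (θ L : ℝ) : Measurable fun z : ℝ => if θ < L * max z 0 then L * max z 0 else 0 := by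
  refine Measurable.ite ?_ (by fun_prop) measurable_const
  exact measurableSet_lt measurable_const (by fun_prop)

omit [IsProbabilityMeasure P] in
theorem p2_integrable {z : Ω → ℝ} (hz : Measurable z) (h1 : Integrable z P) {θ L : ℝ} (hL : 0 ≤ L) :
    Integrable (fun ω => if θ < L * max (z ω) 0 then L * max (z ω) 0 else 0) P := by
  refine Integrable.mono' (h1.pos_part.const_mul L)
    ((p2_meas θ L).comp hz).aestronglyMeasurable (Filter.Eventually.of_forall fun ω => ?_)
  have h0 : 0 ≤ L * max (z ω) 0 := mul_nonneg hL (le_max_right _ _)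
  rw [Real.norm_eq_abs]
  split_ifs
  · rw [abs_of_nonneg h0]
  · simpa using h0

theorem p1_integrable {z : Ω → ℝ} (h1 : Integrable z P) {R L δ' : ℝ} :
    Integrable (fun ω => if R < L then L * (max (z ω) 0 + δ') else 0) P := by
  by_cases h : R < L
  · simp only [h, if_true]
    exact (h1.pos_part.add (integrable_const _)).const_mul _
  · simp only [h, if_false]
    exact integrable_const _

theorem p3_integrable {V : Type*} {ζ : V → Ω → ℝ} (hm : ∀ y, Measurable (ζ y))
    (hint : ∀ y, Integrable (ζ y) P) {δ' R θ : ℝ} (hδ : 0 ≤ δ') (d : V → ℝ) (hd1 : ∀ y, 1 ≤ d y)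
    (F : Finset V) (c L : V → ℝ) :
    Integrable (fun ω => max (∑ y ∈ F, c y * XX δ' R θ (L y) (d y) (ζ y ω)) 0) P := by
  apply Integrable.pos_part
  apply integrable_finsetSum
  intro y _
  exact (XX_integrable (hm y) (hint y) hδ (hd1 y)).const_mul _

theorem gg_integrable {V : Type*} [DecidableEq V] {ζ : V → Ω → ℝ} (hm : ∀ y, Measurable (ζ y))
    (hint : ∀ y, Integrable (ζ y) P) {δ' R θ : ℝ} (hδ : 0 ≤ δ') (d : V → ℝ) (hd1 : ∀ y, 1 ≤ d y)
    (N : ℕ) (l : List V) :
    Integrable (fun ω => gg δ' R θ d N l (fun y => ζ y ω)) P := by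
  unfold gg
  refine ((integrable_finsetSum _ fun y _ => ?_).add
    (integrable_finsetSum _ fun y _ => ?_)).add (integrable_finsetSum _ fun k _ => ?_)
  · exact p1_integrable (hint y)
  · exact p2_integrable (hm y) (hint y) (by positivity)
  · exact p3_integrable hm hint hδ d hd1 _ _ _

theorem sum_count_take {V : Type*} [DecidableEq V] (l : List V) {k : ℕ} (hk : k ≤ l.length) :
    ∑ y ∈ l.toFinset, ((l.take k).count y : ℝ) = k := by
  have := pref_sum l k (fun _ => (1:ℝ))
  simp only [mul_one] at this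
  rw [← this]
  simp [hk]

theorem E_gg {V : Type*} [DecidableEq V] {ζ : V → Ω → ℝ} (hm : ∀ y, Measurable (ζ y))
    (hi : iIndepFun ζ P) {o : V} (hid : ∀ y, IdentDistrib (ζ y) (ζ o) P P)
    (h2 : Integrable (fun ω => ζ o ω ^ 2) P) (h1 : Integrable (ζ o) P)
    {δ : ℝ} (hδ : 0 < δ) (hmean : ∫ ω, ζ o ω ∂P = -δ) {D : ℝ} (d : V → ℝ)
    (hd1 : ∀ y, 1 ≤ d y) (hdD : ∀ y, d y ≤ D) {h R θ : ℝ} (hh : 0 < h) (hθ : 0 ≤ θ)
    (hcond : h * R * Real.exp (h * θ) * (∫ ω, ζ o ω ^ 2 ∂P) ≤ δ / D / 2) (N : ℕ) (l : List V) :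
    ∫ ω, gg (δ / D) R θ d N l (fun y => ζ y ω) ∂P ≤
      (∑ y ∈ l.toFinset, if R < (l.count y : ℝ) then
        (l.count y : ℝ) * ((∫ ω, max (ζ o ω) 0 ∂P) + δ / D) else 0)
      + (∫ ω, (∑ y ∈ l.toFinset, if θ < (l.count y : ℝ) * max (ζ o ω) 0 then
        (l.count y : ℝ) * max (ζ o ω) 0 else 0) ∂P)
      + (l.length + 1) * (1 / h * Real.exp (-(h * N * (δ / D / 2)))) := by
  have hD : 0 < D := by linarith [hd1 o, hdD o]
  have hδ' : 0 < δ / D := by positivity
  have hint : ∀ y, Integrable (ζ y) P := fun y => (hid y).integrable_iff.2 h1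
  have I1 : Integrable (fun ω => ∑ y ∈ l.toFinset, (if R < (l.count y : ℝ) then
      (l.count y : ℝ) * (max (ζ y ω) 0 + δ / D) else 0)) P :=
    integrable_finsetSum _ fun y _ => p1_integrable (hint y)
  have I2 : Integrable (fun ω => ∑ y ∈ l.toFinset, (if θ < (l.count y : ℝ) * max (ζ y ω) 0 then
      (l.count y : ℝ) * max (ζ y ω) 0 else 0)) P :=
    integrable_finsetSum _ fun y _ => p2_integrable (hm y) (hint y) (by positivity)
  have I3 : ∀ k : ℕ, Integrable (fun ω => max (∑ y ∈ l.toFinset, ((l.take k).count y : ℝ) *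
      XX (δ / D) R θ (l.count y) (d y) (ζ y ω)) 0) P := fun k =>
    p3_integrable hm hint hδ'.le d hd1 _ (fun y => ((l.take k).count y : ℝ)) _
  have I3' : Integrable (fun ω => ∑ k ∈ Finset.Ico N (l.length + 1),
      max (∑ y ∈ l.toFinset, ((l.take k).count y : ℝ) *
      XX (δ / D) R θ (l.count y) (d y) (ζ y ω)) 0) P :=
    integrable_finsetSum _ fun k _ => I3 k
  have hsplit : ∫ ω, gg (δ / D) R θ d N l (fun y => ζ y ω) ∂P =
      (∫ ω, (∑ y ∈ l.toFinset, (if R < (l.count y : ℝ) then
        (l.count y : ℝ) * (max (ζ y ω) 0 + δ / D) else 0)) ∂P) +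
      (∫ ω, (∑ y ∈ l.toFinset, (if θ < (l.count y : ℝ) * max (ζ y ω) 0 then
        (l.count y : ℝ) * max (ζ y ω) 0 else 0)) ∂P) +
      ∫ ω, (∑ k ∈ Finset.Ico N (l.length + 1),
        max (∑ y ∈ l.toFinset, ((l.take k).count y : ℝ) *
        XX (δ / D) R θ (l.count y) (d y) (ζ y ω)) 0) ∂P := by
    have e12 := integral_add I1 I2
    have e3 := integral_add (I1.add I2) I3'
    rw [← e12]
    exact e3
  rw [hsplit]
  refine add_le_add (add_le_add ?_ ?_) ?_
  · rw [integral_finsetSum _ fun y _ => p1_integrable (hint y)]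
    apply le_of_eq
    refine Finset.sum_congr rfl fun y _ => ?_
    by_cases hRL : R < (l.count y : ℝ)
    · simp only [hRL, if_true]
      rw [integral_const_mul, integral_add (hint y).pos_part (integrable_const _), integral_const,
        probReal_univ, one_smul]
      congr 2
      exact ((hid y).comp (u := fun z : ℝ => max z 0) (by fun_prop)).integral_eq
    · simp only [hRL, if_false, integral_zero]
  · rw [integral_finsetSum _ fun y _ => p2_integrable (hm y) (hint y) (by positivity),
      integral_finsetSum _ fun y _ => p2_integrable (hm o) (hint o) (by positivity)]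
    apply le_of_eq
    refine Finset.sum_congr rfl fun y _ => ?_
    exact ((hid y).comp (u := fun z : ℝ => if θ < (l.count y : ℝ) * max z 0 then
      (l.count y : ℝ) * max z 0 else 0) (p2_meas _ _)).integral_eq
  · rw [integral_finsetSum _ fun k _ => I3 k]
    have hterm : ∀ k ∈ Finset.Ico N (l.length + 1),
        ∫ ω, max (∑ y ∈ l.toFinset, ((l.take k).count y : ℝ) *
        XX (δ / D) R θ (l.count y) (d y) (ζ y ω)) 0 ∂P ≤
        1 / h * Real.exp (-(h * N * (δ / D / 2))) := by
      intro k hk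
      rw [Finset.mem_Ico] at hk
      have hc0 : ∀ y, (0:ℝ) ≤ ((l.take k).count y : ℝ) := fun y => by positivity
      have e1 := mgf_T (P := P) hm hi hid h2 h1 hδ hmean d hd1 hdD hh hθ hcond l.toFinset
        (fun y => ((l.take k).count y : ℝ)) (fun y => (l.count y : ℝ)) hc0 (count_take_le l k)
      have e2 := int_exp (P := P) hm (R := R) hδ'.le hh hθ d hd1 l.toFinset
        (fun y => ((l.take k).count y : ℝ)) (fun y => (l.count y : ℝ)) hc0 (count_take_le l k)
      rw [sum_count_take l (by omega)] at e1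
      calc ∫ ω, max (∑ y ∈ l.toFinset, ((l.take k).count y : ℝ) *
            XX (δ / D) R θ (l.count y) (d y) (ζ y ω)) 0 ∂P
          ≤ ∫ ω, 1 / h * Real.exp (h * ∑ y ∈ l.toFinset, ((l.take k).count y : ℝ) *
            XX (δ / D) R θ (l.count y) (d y) (ζ y ω)) ∂P := by
            apply integral_mono (I3 k) (e2.const_mul _)
            intro ω
            simp only
            set T := ∑ y ∈ l.toFinset, ((l.take k).count y : ℝ) *
              XX (δ / D) R θ (l.count y) (d y) (ζ y ω)
            have f1 := Real.add_one_le_exp (h * T)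
            have f2 := Real.exp_pos (h * T)
            apply max_le
            · rw [one_div, ← div_eq_inv_mul, le_div_iff₀ hh]
              linarith
            · positivity
        _ = 1 / h * ∫ ω, Real.exp (h * ∑ y ∈ l.toFinset, ((l.take k).count y : ℝ) *
            XX (δ / D) R θ (l.count y) (d y) (ζ y ω)) ∂P := integral_const_mul _ _
        _ ≤ 1 / h * Real.exp (-(h * k * (δ / D / 2))) := by gcongr
        _ ≤ 1 / h * Real.exp (-(h * N * (δ / D / 2))) := by
            have hkN : (N:ℝ) ≤ k := by exact_mod_cast hk.1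
            gcongr
    refine (Finset.sum_le_sum hterm).trans ?_
    rw [Finset.sum_const, nsmul_eq_mul, Nat.card_Ico]
    have hle : (((l.length + 1 - N : ℕ)) : ℝ) ≤ (l.length : ℝ) + 1 := by
      exact_mod_cast Nat.sub_le _ _
    gcongr

variable {V : Type*} {G : SimpleGraph V} [G.LocallyFinite]

theorem Ex_block [DecidableEq V] [Infinite V] (hcn : G.Connected) (hd : ∀ v, 0 < G.degree v)
    {D : ℕ} (hD : ∀ v, G.degree v ≤ D) {ζ : V → Ω → ℝ} (hm : ∀ y, Measurable (ζ y))
    (hi : iIndepFun ζ P) {o : V} (hid : ∀ y, IdentDistrib (ζ y) (ζ o) P P)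
    (h2 : Integrable (fun ω => ζ o ω ^ 2) P) (h1 : Integrable (ζ o) P)
    {δ : ℝ} (hδ : 0 < δ) (hmean : ∫ ω, ζ o ω ∂P = -δ) {h R θ : ℝ} (hh : 0 < h) (hR : 0 < R)
    (hθ : 0 < θ)
    (hcond : h * R * Real.exp (h * θ) * (∫ ω, ζ o ω ^ 2 ∂P) ≤ δ / D / 2) (N m : ℕ) (v : V) :
    Ex G m v (fun l => ∫ ω, gg (δ / D) R θ (fun y => (G.degree y : ℝ)) N l (fun y => ζ y ω) ∂P) ≤
      ((∫ ω, max (ζ o ω) 0 ∂P) + δ / D) * (60750 * D ^ 4 * m ^ 3 / R ^ 4)
      + (∫ ω, min (m * max (ζ o ω) 0) (60750 * D ^ 4 * m ^ 3 * max (ζ o ω) 0 ^ 5 / θ ^ 4) ∂P)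
      + (m + 1) * (1 / h * Real.exp (-(h * N * (δ / D / 2)))) := by
  have hd1 : ∀ y, (1:ℝ) ≤ (G.degree y : ℝ) := fun y => by exact_mod_cast hd y
  have hdD : ∀ y, (G.degree y : ℝ) ≤ D := fun y => by exact_mod_cast hD y
  have hD0 : (0:ℝ) < D := by linarith [hd1 o, hdD o]
  have hδ' : 0 < δ / D := by positivity
  set m1 := ∫ ω, max (ζ o ω) 0 ∂P with hm1
  have hm1n : 0 ≤ m1 := integral_nonneg fun ω => le_max_right _ _
  have h5 := fun v => Ex_five (G := G) hcn hd hD m v
  -- step 1
  have s1 : Ex G m v (fun l => ∫ ω, gg (δ / D) R θ (fun y => (G.degree y : ℝ)) N l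
      (fun y => ζ y ω) ∂P) ≤ Ex G m v (fun l => (m1 + δ / D) / R ^ 4 *
        (∑ y ∈ l.toFinset, (l.count y : ℝ) ^ 5)
      + (∫ ω, (∑ y ∈ l.toFinset, if θ < (l.count y : ℝ) * max (ζ o ω) 0 then
        (l.count y : ℝ) * max (ζ o ω) 0 else 0) ∂P)
      + (m + 1) * (1 / h * Real.exp (-(h * N * (δ / D / 2))))) := by
    apply Ex_mono
    intro l hl
    refine (E_gg hm hi hid h2 h1 hδ hmean (fun y => (G.degree y : ℝ)) hd1 hdD hh hθ.le hcond N l).trans ?_
    rw [hl]
    refine add_le_add (add_le_add ?_ le_rfl) le_rfl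
    rw [Finset.mul_sum]
    apply Finset.sum_le_sum
    intro y _
    set L : ℝ := (l.count y : ℝ) with hL
    have hL0 : 0 ≤ L := by positivity
    split_ifs with hRL
    · have e1 : R ^ 4 ≤ L ^ 4 := by gcongr
      have e2 : L ≤ L ^ 5 / R ^ 4 := by
        rw [le_div_iff₀ (by positivity)]
        calc L * R ^ 4 ≤ L * L ^ 4 := by gcongr
          _ = L ^ 5 := by ring
      calc L * (m1 + δ / D) ≤ L ^ 5 / R ^ 4 * (m1 + δ / D) := by gcongr
        _ = _ := by ring
    · positivity
  refine s1.trans ?_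
  rw [Ex_add, Ex_add, Ex_mul, Ex_const hd]
  refine add_le_add (add_le_add ?_ ?_) le_rfl
  · calc (m1 + δ / D) / R ^ 4 * Ex G m v (fun l => ∑ y ∈ l.toFinset, (l.count y : ℝ) ^ 5)
        ≤ (m1 + δ / D) / R ^ 4 * (60750 * D ^ 4 * m ^ 3) := by
          have := h5 v
          gcongr
      _ = _ := by ring
  · have J : ∀ l : List V, Integrable (fun ω => ∑ y ∈ l.toFinset,
        if θ < (l.count y : ℝ) * max (ζ o ω) 0 then (l.count y : ℝ) * max (ζ o ω) 0 else 0) P :=
      fun l => integrable_finsetSum _ fun y _ => p2_integrable (hm o) h1 (by positivity)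
    rw [← Ex_integral (P := P) (fun (l : List V) ω => ∑ y ∈ l.toFinset,
        if θ < (l.count y : ℝ) * max (ζ o ω) 0 then (l.count y : ℝ) * max (ζ o ω) 0 else 0) J]
    have hmeas : Measurable fun ω => min ((m:ℝ) * max (ζ o ω) 0)
        (60750 * D ^ 4 * m ^ 3 * max (ζ o ω) 0 ^ 5 / θ ^ 4) := by
      have := hm o
      fun_prop
    have hI : Integrable (fun ω => min ((m:ℝ) * max (ζ o ω) 0)
        (60750 * D ^ 4 * m ^ 3 * max (ζ o ω) 0 ^ 5 / θ ^ 4)) P := by
      refine Integrable.mono' (h1.pos_part.const_mul (m:ℝ)) hmeas.aestronglyMeasurable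
        (Filter.Eventually.of_forall fun ω => ?_)
      have hz : 0 ≤ max (ζ o ω) 0 := le_max_right _ _
      rw [Real.norm_eq_abs, abs_of_nonneg (le_min (by positivity) (by positivity))]
      exact min_le_left _ _
    apply integral_mono (Ex_integrable (P := P) (fun (l : List V) ω => ∑ y ∈ l.toFinset,
        if θ < (l.count y : ℝ) * max (ζ o ω) 0 then (l.count y : ℝ) * max (ζ o ω) 0 else 0) J m v) hI
    intro ω
    simp only
    set x := max (ζ o ω) 0 with hx
    have hz : 0 ≤ x := le_max_right _ _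
    apply le_min
    · calc _ ≤ Ex G m v (fun _ => (m:ℝ) * x) := by
            apply Ex_mono
            intro l hl
            calc _ ≤ ∑ y ∈ l.toFinset, (l.count y : ℝ) * x := by
                  apply Finset.sum_le_sum
                  intro y _
                  split_ifs
                  · exact le_rfl
                  · positivity
              _ = (∑ y ∈ l.toFinset, (l.count y : ℝ)) * x := by rw [Finset.sum_mul]
              _ ≤ _ := by
                  have := sum_count_le l l.toFinset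
                  rw [hl] at this
                  gcongr
        _ = _ := Ex_const hd _ _ _
    · calc _ ≤ Ex G m v (fun l => x ^ 5 / θ ^ 4 * ∑ y ∈ l.toFinset, (l.count y : ℝ) ^ 5) := by
            apply Ex_mono
            intro l hl
            rw [Finset.mul_sum]
            apply Finset.sum_le_sum
            intro y _
            set L : ℝ := (l.count y : ℝ) with hL
            have hL0 : 0 ≤ L := by positivity
            split_ifs with hlt
            · have hp : 0 < L * x := hθ.trans hlt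
              have e1 : θ ^ 4 ≤ (L * x) ^ 4 := by gcongr
              calc L * x ≤ (L * x) ^ 5 / θ ^ 4 := by
                    rw [le_div_iff₀ (by positivity)]
                    calc L * x * θ ^ 4 ≤ L * x * (L * x) ^ 4 := by gcongr
                      _ = (L * x) ^ 5 := by ring
                _ = _ := by ring
            · positivity
        _ = x ^ 5 / θ ^ 4 * Ex G m v (fun l => ∑ y ∈ l.toFinset, (l.count y : ℝ) ^ 5) := Ex_mul _ _ _ _
        _ ≤ x ^ 5 / θ ^ 4 * (60750 * D ^ 4 * m ^ 3) := by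
            have := h5 v
            gcongr
        _ = _ := by ring

end Pool.Agent.V1185.SP
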