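import Mathlib
import Pool.Agent.V1185.SP.Blk

/-!
# Divisible sandpile: summation over the blocks
-/

open Finset MeasureTheory ProbabilityTheory Filter

namespace Pool.Agent.V1185.SP

theorem sumA {r t : ℝ} (hr : 2 ≤ r) (ht : 0 ≤ t) (J : ℕ) :
    ∑ i ∈ Finset.range J, (if r ^ i ≤ t then r ^ i else 0) ≤ 2 * t := by
  have hr0 : 0 < r := by linarith
  have h1 : ∀ i ∈ Finset.range J, (if r ^ i ≤ t then r ^ i else 0) ≤
      2 * min t (r ^ (i + 1) / r) - 2 * min t (r ^ i / r) := by
    intro i _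
    have e1 : r ^ (i + 1) / r = r ^ i := by rw [pow_succ]; field_simp
    have hp : 0 < r ^ i := by positivity
    have e2 : r ^ i / r ≤ r ^ i / 2 := by gcongr
    have e3 : r ^ i / r ≤ r ^ i := by linarith
    rw [e1]
    split_ifs with h
    · rw [min_eq_right h]
      have := min_le_right t (r ^ i / r)
      linarith
    · have : min t (r ^ i / r) ≤ min t (r ^ i) := min_le_min le_rfl e3
      linarith
  refine (Finset.sum_le_sum h1).trans ?_
  rw [Finset.sum_range_sub (fun i => 2 * min t (r ^ i / r))]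
  have h2 := min_le_left t (r ^ J / r)
  have h3 : 0 ≤ min t (r ^ 0 / r) := le_min ht (by positivity)
  linarith

theorem sumB {r t : ℝ} (hr : 2 ≤ r) (ht : 0 < t) (J : ℕ) :
    ∑ i ∈ Finset.range J, (if r ^ i ≤ t then 0 else 1 / r ^ i) ≤ 2 / t := by
  have hr0 : 0 < r := by linarith
  have h1 : ∀ i ∈ Finset.range J, (if r ^ i ≤ t then 0 else 1 / r ^ i) ≤
      (-(2 * (1 / max t (r ^ (i + 1))))) - (-(2 * (1 / max t (r ^ i)))) := by
    intro i _
    have hp : 0 < r ^ i := by positivity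
    have hle : r ^ i ≤ r ^ (i + 1) := pow_le_pow_right₀ (by linarith) (by omega)
    split_ifs with h
    · have : 1 / max t (r ^ (i + 1)) ≤ 1 / max t (r ^ i) := by
        gcongr
      linarith
    · have h' : t < r ^ i := not_le.1 h
      rw [max_eq_right h'.le, max_eq_right (h'.le.trans hle)]
      have : 1 / r ^ (i + 1) ≤ 1 / (2 * r ^ i) := by
        rw [pow_succ]
        apply one_div_le_one_div_of_le (by positivity)
        nlinarith
      have e : 1 / (2 * r ^ i) = 1 / r ^ i / 2 := by field_simp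
      linarith
  refine (Finset.sum_le_sum h1).trans ?_
  rw [Finset.sum_range_sub (fun i => -(2 * (1 / max t (r ^ i))))]
  have h2 : 0 ≤ 1 / max t (r ^ J) := by positivity
  have h3 : 1 / max t (r ^ 0) ≤ 1 / t := one_div_le_one_div_of_le ht (le_max_left _ _)
  have h4 : 2 / t = 2 * (1 / t) := by ring
  linarith

theorem sumMin {a b x : ℝ} (ha : 0 ≤ a) (hb : 0 ≤ b) (hx : 0 ≤ x) (J : ℕ) :
    ∑ i ∈ Finset.range J, min (a * 256 ^ i * x) (b * x ^ 5 / 256 ^ i) ≤ (2 * a + 2 * b) * x ^ 3 := by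
  rcases hx.eq_or_lt with rfl | hx
  · simp
  have h1 : ∀ i ∈ Finset.range J, min (a * 256 ^ i * x) (b * x ^ 5 / 256 ^ i) ≤
      a * x * (if (256:ℝ) ^ i ≤ x ^ 2 then 256 ^ i else 0) +
      b * x ^ 5 * (if (256:ℝ) ^ i ≤ x ^ 2 then 0 else 1 / 256 ^ i) := by
    intro i _
    split_ifs with h
    · refine (min_le_left _ _).trans (le_of_eq ?_)
      ring
    · refine (min_le_right _ _).trans (le_of_eq ?_)
      ring
  refine (Finset.sum_le_sum h1).trans ?_
  rw [Finset.sum_add_distrib, ← Finset.mul_sum, ← Finset.mul_sum]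
  have hA := sumA (r := 256) (t := x ^ 2) (by norm_num) (by positivity) J
  have hB := sumB (r := 256) (t := x ^ 2) (by norm_num) (by positivity) J
  calc _ ≤ a * x * (2 * x ^ 2) + b * x ^ 5 * (2 / x ^ 2) := by gcongr
    _ = _ := by field_simp

variable {Ω : Type*} [MeasurableSpace Ω] {P : Measure Ω} [IsProbabilityMeasure P]

omit [IsProbabilityMeasure P] in
theorem mp_integrable {V : Type*} {η : V → Ω → ℝ} (h : ∀ y, Integrable (η y) P) (l : List V) :
    Integrable (fun ω => mp (fun y => η y ω) l) P := by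
  induction l with
  | nil => simp [mp]
  | cons x l ih =>
    simp only [mp]
    have := ((h x).add ih).pos_part
    refine this.congr (Filter.Eventually.of_forall fun ω => ?_)
    simp only [Pi.add_apply]
    exact max_comm _ _

/-- block bound -/
noncomputable def bb {V : Type*} [DecidableEq V] (i0 : ℕ) (δ' κ : ℝ) (d : V → ℝ) (i : ℕ)
    (l : List V) (z : V → ℝ) : ℝ :=
  if i < i0 then (l.map fun y => max (z y) 0).sum else
    gg δ' (128 ^ i) (κ * 256 ^ i) d (256 ^ i) l z

theorem bb_nonneg {V : Type*} [DecidableEq V] (i0 : ℕ) {δ' : ℝ} (hδ : 0 ≤ δ') (κ : ℝ) (d : V → ℝ)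
    (i : ℕ) (l : List V) (z : V → ℝ) : 0 ≤ bb i0 δ' κ d i l z := by
  unfold bb
  split_ifs
  · apply List.sum_nonneg
    intro a ha
    simp only [List.mem_map] at ha
    obtain ⟨y, -, rfl⟩ := ha
    exact le_max_right _ _
  · exact gg_nonneg hδ _ _ _ _

theorem small_le {V : Type*} {d : V → ℝ} (hd1 : ∀ y, 1 ≤ d y) (l : List V) (z : V → ℝ) (k : ℕ) :
    ((l.take k).map (fun y => z y / d y)).sum ≤ (l.map fun y => max (z y) 0).sum := by
  induction l generalizing k with
  | nil => simp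
  | cons x l ih =>
    have h3 : z x / d x ≤ max (z x) 0 := by
      rw [div_le_iff₀ (by linarith [hd1 x])]
      have : z x ≤ max (z x) 0 := le_max_left _ _
      have : 0 ≤ max (z x) 0 := le_max_right _ _
      have := hd1 x
      nlinarith
    have h0 : 0 ≤ max (z x) 0 := le_max_right _ _
    cases k with
    | zero =>
      simp only [List.take_zero, List.map_nil, List.sum_nil, List.map_cons, List.sum_cons]
      have := ih 0
      simp only [List.take_zero, List.map_nil, List.sum_nil] at this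
      linarith
    | succ k =>
      simp only [List.take_succ_cons, List.map_cons, List.sum_cons]
      have := ih k
      linarith

theorem mp_le_blocks {V : Type*} [DecidableEq V] (i0 : ℕ) {δ' : ℝ} (hδ : 0 ≤ δ') (κ : ℝ)
    {d : V → ℝ} (hd1 : ∀ y, 1 ≤ d y) (J : ℕ) (l : List V) (hl : l.length = 256 ^ J - 1)
    (z : V → ℝ) :
    mp (fun y => z y / d y) l ≤
      ∑ i ∈ Finset.range J, bb i0 δ' κ d i (l.take (256 ^ (i + 1) - 1)) z := by
  apply mp_le
  intro k hk
  have hnn : ∀ i ∈ Finset.range J, 0 ≤ bb i0 δ' κ d i (l.take (256 ^ (i + 1) - 1)) z :=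
    fun i _ => bb_nonneg i0 hδ κ d i _ z
  rcases Nat.eq_zero_or_pos k with rfl | hk0
  · simpa using Finset.sum_nonneg hnn
  set i := Nat.log 256 k with hi
  have h1 : 256 ^ i ≤ k := Nat.pow_log_le_self 256 hk0.ne'
  have h2 : k < 256 ^ (i + 1) := Nat.lt_pow_succ_log_self (by norm_num) k
  have hpJ : 1 ≤ 256 ^ J := Nat.one_le_pow _ _ (by norm_num)
  have hiJ : i < J := by
    rw [hl] at hk
    have : 256 ^ i < 256 ^ J := by omega
    exact (Nat.pow_lt_pow_iff_right (by norm_num)).1 this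
  refine le_trans ?_ (Finset.single_le_sum hnn (Finset.mem_range.2 hiJ))
  have htt : l.take k = (l.take (256 ^ (i + 1) - 1)).take k := by
    rw [List.take_take, min_eq_left (by omega)]
  have hlen : (l.take (256 ^ (i + 1) - 1)).length = 256 ^ (i + 1) - 1 := by
    rw [List.length_take, hl]
    have : 256 ^ (i + 1) ≤ 256 ^ J := Nat.pow_le_pow_right (by norm_num) hiJ
    omega
  rw [htt]
  unfold bb
  split_ifs
  · exact small_le hd1 _ _ _
  · apply gg_ge hδ d hd1
    rw [Finset.mem_Ico, hlen]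
    omega

theorem bb_integrable {V : Type*} [DecidableEq V] {ζ : V → Ω → ℝ} (hm : ∀ y, Measurable (ζ y))
    (hint : ∀ y, Integrable (ζ y) P) {δ' κ : ℝ} (hδ : 0 ≤ δ') (d : V → ℝ) (hd1 : ∀ y, 1 ≤ d y)
    (i0 i : ℕ) (l : List V) :
    Integrable (fun ω => bb i0 δ' κ d i l (fun y => ζ y ω)) P := by
  unfold bb
  split_ifs
  · induction l with
    | nil => simp
    | cons x l ih =>
      simp only [List.map_cons, List.sum_cons]
      exact (hint x).pos_part.add ih
  · exact gg_integrable hm hint hδ d hd1 _ _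

theorem small_int {V : Type*} {ζ : V → Ω → ℝ} {o : V}
    (hid : ∀ y, IdentDistrib (ζ y) (ζ o) P P) (h1 : Integrable (ζ o) P) (l : List V) :
    ∫ ω, (l.map fun y => max (ζ y ω) 0).sum ∂P = l.length * ∫ ω, max (ζ o ω) 0 ∂P := by
  have hint : ∀ y, Integrable (ζ y) P := fun y => (hid y).integrable_iff.2 h1
  have hI : ∀ l : List V, Integrable (fun ω => (l.map fun y => max (ζ y ω) 0).sum) P := by
    intro l
    induction l with
    | nil => simp
    | cons x l ih =>
      simp only [List.map_cons, List.sum_cons]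
      exact (hint x).pos_part.add ih
  induction l with
  | nil => simp
  | cons x l ih =>
    simp only [List.map_cons, List.sum_cons, List.length_cons]
    have e : ∫ ω, max (ζ x ω) 0 ∂P = ∫ ω, max (ζ o ω) 0 ∂P :=
      ((hid x).comp (u := fun z : ℝ => max z 0) (by fun_prop)).integral_eq
    rw [integral_add (hint x).pos_part (hI l), ih, e]
    push_cast
    ring

variable {V : Type*} {G : SimpleGraph V} [G.LocallyFinite]

theorem exists_i0 {K V0 c : ℝ} (hc : 0 < c) :
    ∃ i0 : ℕ, 1 ≤ i0 ∧ ∀ i ≥ i0, K * i / 2 ^ i * Real.exp ((i:ℝ) / 4) * V0 ≤ c := by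
  have hr : Real.exp (1 / 4) / 2 < 1 := by
    rw [div_lt_one (by norm_num)]
    calc Real.exp (1 / 4) < Real.exp (Real.log 2) := by
          apply Real.exp_lt_exp.2
          have := Real.log_two_gt_d9
          linarith
      _ = 2 := Real.exp_log (by norm_num)
  have ht := tendsto_self_mul_const_pow_of_lt_one (r := Real.exp (1 / 4) / 2) (by positivity) hr
  have ht2 := ht.const_mul (K * V0)
  rw [mul_zero] at ht2
  obtain ⟨i1, hi1⟩ := Filter.eventually_atTop.1 (ht2.eventually_le_const hc)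
  refine ⟨max i1 1, le_max_right _ _, fun i hi => ?_⟩
  have := hi1 i ((le_max_left _ _).trans hi)
  refine le_trans (le_of_eq ?_) this
  have e : Real.exp ((i:ℝ) / 4) = Real.exp (1 / 4) ^ i := by
    rw [← Real.exp_nat_mul]
    congr 1; ring
  rw [e, div_pow]
  ring

theorem total_bound [DecidableEq V] [Infinite V] (hcn : G.Connected) (hd : ∀ v, 0 < G.degree v)
    {D : ℕ} (hD : ∀ v, G.degree v ≤ D) {ζ : V → Ω → ℝ} (hm : ∀ y, Measurable (ζ y))
    (hi : iIndepFun ζ P) {o : V} (hid : ∀ y, IdentDistrib (ζ y) (ζ o) P P)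
    (h3 : Integrable (fun ω => max (ζ o ω) 0 ^ 3) P)
    (h2 : Integrable (fun ω => ζ o ω ^ 2) P) (h1 : Integrable (ζ o) P)
    {δ : ℝ} (hδ : 0 < δ) (hmean : ∫ ω, ζ o ω ∂P = -δ) :
    ∃ C : ℝ, ∀ (J : ℕ) (v : V),
      Ex G (256 ^ J - 1) v (fun l => ∫ ω, mp (fun y => ζ y ω / (G.degree y : ℝ)) l ∂P) ≤ C := by
  have hd1 : ∀ y, (1:ℝ) ≤ (G.degree y : ℝ) := fun y => by exact_mod_cast hd y
  have hdD : ∀ y, (G.degree y : ℝ) ≤ D := fun y => by exact_mod_cast hD y
  have hD0 : (0:ℝ) < D := by linarith [hd1 o, hdD o]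
  set δ' : ℝ := δ / D with hδ'd
  have hδ' : 0 < δ' := by positivity
  set K : ℝ := 2 ^ 18 / δ' with hK
  have hK0 : 0 < K := by positivity
  set κ : ℝ := 1 / (4 * K) with hκ
  have hκ0 : 0 < κ := by positivity
  set V0 := ∫ ω, ζ o ω ^ 2 ∂P with hV0
  set m1 := ∫ ω, max (ζ o ω) 0 ∂P with hm1
  have hm1n : 0 ≤ m1 := integral_nonneg fun ω => le_max_right _ _
  obtain ⟨i0, hi01, hi0⟩ := exists_i0 (K := K) (V0 := V0) (c := δ' / 2) (by positivity)
  set C1 : ℝ := (m1 + δ') * (60750 * D ^ 4 * 2 ^ 24) with hC1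
  have hC1n : 0 ≤ C1 := by positivity
  set C2 : ℝ := 60750 * D ^ 4 * 2 ^ 24 / κ ^ 4 with hC2
  have hC2n : 0 ≤ C2 := by positivity
  set C' : ℝ := 256 ^ i0 * m1 * 2 ^ i0 + C1 + 256 / K with hC'
  have hC'n : 0 ≤ C' := by positivity
  set M : ℕ → Ω → ℝ := fun i ω => min (256 * 256 ^ i * max (ζ o ω) 0)
    (C2 * max (ζ o ω) 0 ^ 5 / 256 ^ i) with hM
  have hMn : ∀ i ω, 0 ≤ M i ω := fun i ω => by
    have : 0 ≤ max (ζ o ω) 0 := le_max_right _ _
    exact le_min (by positivity) (by positivity)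
  have hMint : ∀ i, Integrable (M i) P := by
    intro i
    have hmeas : Measurable (M i) := by
      have := hm o
      simp only [hM]
      fun_prop
    refine Integrable.mono' (h1.pos_part.const_mul (256 * 256 ^ i)) hmeas.aestronglyMeasurable
      (Filter.Eventually.of_forall fun ω => ?_)
    rw [Real.norm_eq_abs, abs_of_nonneg (hMn i ω)]
    exact min_le_left _ _
  have hint : ∀ y, Integrable (ζ y) P := fun y => (hid y).integrable_iff.2 h1
  -- the bound of a single block
  have hblock : ∀ (i : ℕ) (v : V), Ex G (256 ^ (i + 1) - 1) v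
      (fun l => ∫ ω, bb i0 δ' κ (fun y => (G.degree y : ℝ)) i l (fun y => ζ y ω) ∂P) ≤
      C' * (1 / 2) ^ i + ∫ ω, M i ω ∂P := by
    intro i v
    have hMi : 0 ≤ ∫ ω, M i ω ∂P := integral_nonneg (hMn i)
    have hmcast : (((256 ^ (i + 1) - 1 : ℕ)) : ℝ) = 256 * 256 ^ i - 1 := by
      rw [Nat.cast_sub (Nat.one_le_pow _ _ (by norm_num))]
      push_cast
      ring
    have hhalf : (0:ℝ) < (1 / 2) ^ i := by positivity
    by_cases hii : i < i0
    · have e1 : Ex G (256 ^ (i + 1) - 1) v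
          (fun l => ∫ ω, bb i0 δ' κ (fun y => (G.degree y : ℝ)) i l (fun y => ζ y ω) ∂P) ≤
          256 ^ i0 * m1 := by
        calc _ ≤ Ex G (256 ^ (i + 1) - 1) v (fun _ => 256 ^ i0 * m1) := by
              apply Ex_mono
              intro l hl
              simp only [bb, hii, if_true]
              rw [small_int hid h1, hl]
              have : (((256 ^ (i + 1) - 1 : ℕ)) : ℝ) ≤ 256 ^ i0 := by
                have h : 256 ^ (i + 1) - 1 ≤ 256 ^ i0 :=
                  (Nat.sub_le _ _).trans (Nat.pow_le_pow_right (by norm_num) hii)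
                exact_mod_cast h
              gcongr
          _ = _ := Ex_const hd _ _ _
      have e2 : (1:ℝ) ≤ 2 ^ i0 * (1 / 2) ^ i := by
        rw [one_div, inv_pow, ← div_eq_mul_inv, one_le_div (by positivity)]
        exact pow_le_pow_right₀ (by norm_num) hii.le
      have e3 : 256 ^ i0 * m1 ≤ C' * (1 / 2) ^ i := by
        calc 256 ^ i0 * m1 = 256 ^ i0 * m1 * 1 := by ring
          _ ≤ 256 ^ i0 * m1 * (2 ^ i0 * (1 / 2) ^ i) := by gcongr
          _ = 256 ^ i0 * m1 * 2 ^ i0 * (1 / 2) ^ i := by ring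
          _ ≤ C' * (1 / 2) ^ i := by
              apply mul_le_mul_of_nonneg_right _ hhalf.le
              have : 0 ≤ 256 / K := by positivity
              rw [hC']; linarith
      linarith
    · have hii' : i0 ≤ i := not_lt.1 hii
      have hi1 : 1 ≤ i := hi01.trans hii'
      have hir : (1:ℝ) ≤ i := by exact_mod_cast hi1
      simp only [bb, hii, if_false]
      set h : ℝ := K * i / 256 ^ i with hh
      have hh0 : 0 < h := by positivity
      have hhθ : h * (κ * 256 ^ i) = (i:ℝ) / 4 := by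
        rw [hh, hκ]; field_simp
      have hhR : h * 128 ^ i = K * i / 2 ^ i := by
        rw [hh]
        have : (256:ℝ) ^ i = 128 ^ i * 2 ^ i := by rw [← mul_pow]; norm_num
        rw [this]
        field_simp
      have hcond : h * 128 ^ i * Real.exp (h * (κ * 256 ^ i)) * V0 ≤ δ / D / 2 := by
        rw [hhθ, hhR]
        exact hi0 i hii'
      have key := Ex_block (P := P) hcn hd hD hm hi hid h2 h1 hδ hmean hh0
        (by positivity : (0:ℝ) < 128 ^ i) (by positivity : 0 < κ * 256 ^ i) hcond (256 ^ i)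
        (256 ^ (i + 1) - 1) v
      refine key.trans ?_
      have hm0 : (0:ℝ) ≤ (((256 ^ (i + 1) - 1 : ℕ)) : ℝ) := by positivity
      have hmle : (((256 ^ (i + 1) - 1 : ℕ)) : ℝ) ≤ 256 * 256 ^ i := by rw [hmcast]; linarith
      have hm3 : (((256 ^ (i + 1) - 1 : ℕ)) : ℝ) ^ 3 ≤ 2 ^ 24 * (256 ^ i) ^ 3 := by
        calc _ ≤ (256 * 256 ^ i : ℝ) ^ 3 := by gcongr
          _ = _ := by rw [mul_pow]; norm_num
      have t1 : (m1 + δ / D) * (60750 * D ^ 4 * (((256 ^ (i + 1) - 1 : ℕ)) : ℝ) ^ 3 / (128 ^ i) ^ 4) ≤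
          C1 * (1 / 2) ^ i := by
        have e1 : (2:ℝ) ^ i * (256 ^ i) ^ 3 ≤ (128 ^ i) ^ 4 := by
          rw [← pow_mul, ← pow_mul, mul_comm i 3, mul_comm i 4, pow_mul, pow_mul, ← mul_pow]
          gcongr
          norm_num
        have e2 : (256 ^ i : ℝ) ^ 3 / (128 ^ i) ^ 4 ≤ (1 / 2) ^ i := by
          rw [div_le_iff₀ (by positivity), one_div, inv_pow, ← div_eq_inv_mul,
            le_div_iff₀ (by positivity)]
          linarith
        calc _ ≤ (m1 + δ / D) * (60750 * D ^ 4 * (2 ^ 24 * (256 ^ i) ^ 3) / (128 ^ i) ^ 4) := by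
              gcongr
          _ = C1 * ((256 ^ i : ℝ) ^ 3 / (128 ^ i) ^ 4) := by rw [hC1]; ring
          _ ≤ _ := by gcongr
      have t2 : ∫ ω, min ((((256 ^ (i + 1) - 1 : ℕ)) : ℝ) * max (ζ o ω) 0)
          (60750 * D ^ 4 * (((256 ^ (i + 1) - 1 : ℕ)) : ℝ) ^ 3 * max (ζ o ω) 0 ^ 5 /
            (κ * 256 ^ i) ^ 4) ∂P ≤ ∫ ω, M i ω ∂P := by
        apply integral_mono_of_nonneg
        · refine Filter.Eventually.of_forall fun ω => ?_
          have : 0 ≤ max (ζ o ω) 0 := le_max_right _ _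
          exact le_min (by positivity) (by positivity)
        · exact hMint i
        · refine Filter.Eventually.of_forall fun ω => ?_
          have hx : 0 ≤ max (ζ o ω) 0 := le_max_right _ _
          simp only [hM]
          apply min_le_min
          · gcongr
          · calc _ ≤ 60750 * D ^ 4 * (2 ^ 24 * (256 ^ i) ^ 3) * max (ζ o ω) 0 ^ 5 /
                  (κ * 256 ^ i) ^ 4 := by gcongr
              _ = _ := by
                  rw [hC2]
                  field_simp
      have t3 : ((((256 ^ (i + 1) - 1 : ℕ)) : ℝ) + 1) * (1 / h *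
          Real.exp (-(h * ((256 ^ i : ℕ) : ℝ) * (δ / D / 2)))) ≤ 256 / K * (1 / 2) ^ i := by
        have e1 : h * ((256 ^ i : ℕ) : ℝ) * (δ / D / 2) = 2 ^ 17 * i := by
          push_cast
          rw [hh, hK, ← hδ'd]
          field_simp
        rw [e1, hmcast]
        have e2 : Real.exp (-(2 ^ 17 * (i:ℝ))) ≤ (1 / 2 ^ 17) ^ i := by
          have : Real.exp (-(2 ^ 17 * (i:ℝ))) = Real.exp (-(2 ^ 17)) ^ i := by
            rw [← Real.exp_nat_mul]; congr 1; ring
          rw [this]
          gcongr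
          rw [Real.exp_neg, one_div]
          apply inv_anti₀ (by positivity)
          have := Real.add_one_le_exp ((2:ℝ) ^ 17)
          linarith
        have e3 : 1 / h = 256 ^ i / (K * i) := by rw [hh, one_div_div]
        have e4 : (256 ^ i : ℝ) / (K * i) ≤ 256 ^ i / K := by
          apply div_le_div_of_nonneg_left (by positivity) hK0
          nlinarith
        calc (256 * 256 ^ i - 1 + 1) * (1 / h * Real.exp (-(2 ^ 17 * (i:ℝ))))
            = 256 * 256 ^ i * (256 ^ i / (K * i) * Real.exp (-(2 ^ 17 * (i:ℝ)))) := by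
              rw [e3]; ring
          _ ≤ 256 * 256 ^ i * (256 ^ i / K * (1 / 2 ^ 17) ^ i) := by gcongr
          _ = 256 / K * (256 ^ i * 256 ^ i * (1 / 2 ^ 17) ^ i) := by ring
          _ = 256 / K * (1 / 2) ^ i := by
              rw [← mul_pow, ← mul_pow]; norm_num
      have : C' * (1 / 2) ^ i ≥ C1 * (1 / 2) ^ i + 256 / K * (1 / 2) ^ i := by
        rw [← add_mul]
        apply mul_le_mul_of_nonneg_right _ hhalf.le
        have : 0 ≤ 256 ^ i0 * m1 * 2 ^ i0 := by positivity
        rw [hC']; linarith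
      linarith
  refine ⟨C' * 2 + (512 + 2 * C2) * ∫ ω, max (ζ o ω) 0 ^ 3 ∂P, fun J v => ?_⟩
  have hηint : ∀ y, Integrable (fun ω => ζ y ω / (G.degree y : ℝ)) P := fun y => (hint y).div_const _
  calc Ex G (256 ^ J - 1) v (fun l => ∫ ω, mp (fun y => ζ y ω / (G.degree y : ℝ)) l ∂P)
      ≤ Ex G (256 ^ J - 1) v (fun l => ∑ i ∈ Finset.range J, ∫ ω, bb i0 δ' κ
          (fun y => (G.degree y : ℝ)) i (l.take (256 ^ (i + 1) - 1)) (fun y => ζ y ω) ∂P) := by
        apply Ex_mono
        intro l hl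
        rw [← integral_finsetSum _ fun i _ => bb_integrable hm hint hδ'.le _ hd1 i0 i _]
        apply integral_mono (mp_integrable hηint l)
          (integrable_finsetSum _ fun i _ => bb_integrable hm hint hδ'.le _ hd1 i0 i _)
        intro ω
        exact mp_le_blocks i0 hδ'.le κ hd1 J l hl (fun y => ζ y ω)
    _ = ∑ i ∈ Finset.range J, Ex G (256 ^ J - 1) v (fun l => ∫ ω, bb i0 δ' κ
          (fun y => (G.degree y : ℝ)) i (l.take (256 ^ (i + 1) - 1)) (fun y => ζ y ω) ∂P) :=
        Ex_sum hd _ _ _ _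
    _ = ∑ i ∈ Finset.range J, Ex G (256 ^ (i + 1) - 1) v (fun l => ∫ ω, bb i0 δ' κ
          (fun y => (G.degree y : ℝ)) i l (fun y => ζ y ω) ∂P) := by
        refine Finset.sum_congr rfl fun i hi => ?_
        rw [Finset.mem_range] at hi
        refine Ex_take hd (fun l => ∫ ω, bb i0 δ' κ
          (fun y => (G.degree y : ℝ)) i l (fun y => ζ y ω) ∂P) ?_ v
        have : 256 ^ (i + 1) ≤ 256 ^ J := Nat.pow_le_pow_right (by norm_num) hi
        omega
    _ ≤ ∑ i ∈ Finset.range J, (C' * (1 / 2) ^ i + ∫ ω, M i ω ∂P) :=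
        Finset.sum_le_sum fun i _ => hblock i v
    _ = C' * ∑ i ∈ Finset.range J, (1 / 2 : ℝ) ^ i + ∫ ω, ∑ i ∈ Finset.range J, M i ω ∂P := by
        rw [Finset.sum_add_distrib, ← Finset.mul_sum, integral_finsetSum _ fun i _ => hMint i]
    _ ≤ C' * 2 + ∫ ω, (2 * 256 + 2 * C2) * max (ζ o ω) 0 ^ 3 ∂P := by
        apply add_le_add
        · have : ∑ i ∈ Finset.range J, (1 / 2 : ℝ) ^ i ≤ 2 := sum_geometric_two_le J
          gcongr
        · apply integral_mono (integrable_finsetSum _ fun i _ => hMint i) (h3.const_mul _)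
          intro ω
          exact sumMin (by norm_num) hC2n (le_max_right _ _) J
    _ = _ := by
        rw [integral_const_mul]
        norm_num

end Pool.Agent.V1185.SP
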