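import Mathlib
import Pool.Agent.V1185.SP.Total

/-!
# Divisible sandpile: from the bound of the expected odometer to stabilization
-/

open Finset MeasureTheory ProbabilityTheory Filter

namespace Pool.Agent.V1185.SP

variable {V : Type*} {G : SimpleGraph V} [G.LocallyFinite]

theorem UU_nonneg (η : V → ℝ) (n : ℕ) (v : V) : 0 ≤ UU G η n v := by
  cases n with
  | zero => exact le_rfl
  | succ n => exact le_max_left _ _

theorem UU_mono_succ (η : V → ℝ) (n : ℕ) (v : V) : UU G η n v ≤ UU G η (n + 1) v := by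
  induction n generalizing v with
  | zero => exact le_max_left _ _
  | succ n ih =>
    have h1 := av_mono (G := G) ih v
    show max 0 (η v + av G (UU G η n) v) ≤ max 0 (η v + av G (UU G η (n + 1)) v)
    exact max_le_max le_rfl (by linarith)

theorem UU_monotone (η : V → ℝ) (v : V) : Monotone fun n => UU G η n v :=
  monotone_nat_of_le_succ fun n => UU_mono_succ η n v

/-- comparison of an odometer recursion with `UU` -/
theorem odo_le_UU {u : ℕ → V → ℝ} {ξ η : V → ℝ} (hξ : ∀ v, ξ v ≤ η v) (h0 : ∀ v, u 0 v = 0)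
    (hs : ∀ n v, u (n + 1) v = max (u n v) (ξ v + av G (u n) v)) (n : ℕ) (v : V) :
    u n v ≤ UU G η n v := by
  induction n generalizing v with
  | zero => rw [h0]; exact le_rfl
  | succ n ih =>
    rw [hs]
    apply max_le
    · exact (ih v).trans (UU_mono_succ η n v)
    · have h1 := av_mono (G := G) ih v
      refine le_trans ?_ (le_max_right _ _)
      have := hξ v
      linarith

/-- finiteness at one vertex gives finiteness at all vertices -/
theorem odo_spread (hc : G.Connected) (hd : ∀ v, 0 < G.degree v) {u : ℕ → V → ℝ} {ξ : V → ℝ}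
    (hn : ∀ n v, 0 ≤ u n v) (hs : ∀ n v, u (n + 1) v = max (u n v) (ξ v + av G (u n) v))
    {o : V} (ho : ∃ M, ∀ n, u n o ≤ M) (v : V) : ∃ M, ∀ n, u n v ≤ M := by
  obtain ⟨p⟩ := hc.preconnected o v
  induction p with
  | nil => exact ho
  | @cons a b c hab _ ih =>
    apply ih
    obtain ⟨M, hM⟩ := ho
    refine ⟨G.degree a * (M - ξ a), fun n => ?_⟩
    have h1 := hM (n + 1)
    rw [hs] at h1
    have h2 : ξ a + av G (u n) a ≤ M := (le_max_right _ _).trans h1
    have hda : (0:ℝ) < G.degree a := by exact_mod_cast hd a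
    have h3 : u n b ≤ ∑ w ∈ G.neighborFinset a, u n w :=
      Finset.single_le_sum (f := u n) (fun w _ => hn n w) (by
        rw [SimpleGraph.mem_neighborFinset]; exact hab)
    have h4 : u n b / G.degree a ≤ av G (u n) a := by
      unfold av
      gcongr
    have h5 : u n b / G.degree a ≤ M - ξ a := by linarith
    rw [div_le_iff₀ hda] at h5
    linarith

variable {Ω : Type*} [MeasurableSpace Ω] {P : Measure Ω} [IsProbabilityMeasure P]

theorem UU_meas {η : V → Ω → ℝ} (h : ∀ y, Measurable (η y)) (n : ℕ) (v : V) :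
    Measurable fun ω => UU G (fun y => η y ω) n v := by
  induction n generalizing v with
  | zero => exact measurable_const
  | succ n ih =>
    have h1 : Measurable fun ω => av G (UU G (fun y => η y ω) n) v := by
      unfold av
      exact (Finset.measurable_fun_sum _ fun w _ => ih w).div_const _
    exact measurable_const.max ((h v).add h1)

/-- almost sure finiteness of the odometer bound at a vertex -/
theorem UU_ae_finite [Infinite V] (hcn : G.Connected) (hd : ∀ v, 0 < G.degree v)
    {D : ℕ} (hD : ∀ v, G.degree v ≤ D) {ζ : V → Ω → ℝ} (hm : ∀ y, Measurable (ζ y))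
    (hi : iIndepFun ζ P) {o : V} (hid : ∀ y, IdentDistrib (ζ y) (ζ o) P P)
    (h3 : Integrable (fun ω => max (ζ o ω) 0 ^ 3) P)
    (h2 : Integrable (fun ω => ζ o ω ^ 2) P) (h1 : Integrable (ζ o) P)
    {δ : ℝ} (hδ : 0 < δ) (hmean : ∫ ω, ζ o ω ∂P = -δ) :
    ∀ᵐ ω ∂P, ∃ M : ℝ, ∀ n, UU G (fun y => ζ y ω / (G.degree y : ℝ)) n o ≤ M := by
  classical
  obtain ⟨C, hC⟩ := total_bound (P := P) hcn hd hD hm hi hid h3 h2 h1 hδ hmean
  have hint : ∀ y, Integrable (fun ω => ζ y ω / (G.degree y : ℝ)) P := fun y =>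
    ((hid y).integrable_iff.2 h1).div_const _
  have hηm : ∀ y, Measurable (fun ω => ζ y ω / (G.degree y : ℝ)) := fun y => (hm y).div_const _
  set f : ℕ → Ω → ENNReal := fun n ω =>
    ENNReal.ofReal (UU G (fun y => ζ y ω / (G.degree y : ℝ)) n o) with hf
  have hfm : ∀ n, Measurable (f n) := fun n => (UU_meas hηm n o).ennreal_ofReal
  have hmono : Monotone f := fun m n hmn ω =>
    ENNReal.ofReal_le_ofReal (UU_monotone (G := G) (fun y => ζ y ω / (G.degree y : ℝ)) o hmn)
  have hbd : ∀ n, ∫⁻ ω, f n ω ∂P ≤ ENNReal.ofReal C := by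
    intro n
    have hn : n ≤ 256 ^ n - 1 := by
      have : n < 256 ^ n := Nat.lt_pow_self (by norm_num)
      omega
    have hmpI : ∀ l : List V, Integrable (fun ω => mp (fun y => ζ y ω / (G.degree y : ℝ)) l) P :=
      fun l => mp_integrable hint l
    have hEI : Integrable (fun ω => Ex G (256 ^ n - 1) o
        (fun l => mp (fun y => ζ y ω / (G.degree y : ℝ)) l)) P :=
      Ex_integrable (P := P) (fun (l : List V) ω => mp (fun y => ζ y ω / (G.degree y : ℝ)) l)
        hmpI _ o
    calc ∫⁻ ω, f n ω ∂P ≤ ∫⁻ ω, ENNReal.ofReal (Ex G (256 ^ n - 1) o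
          (fun l => mp (fun y => ζ y ω / (G.degree y : ℝ)) l)) ∂P := by
          apply lintegral_mono
          intro ω
          apply ENNReal.ofReal_le_ofReal
          exact (UU_monotone (G := G) (fun y => ζ y ω / (G.degree y : ℝ)) o hn).trans
            (UU_le hd _ _ o)
      _ = ENNReal.ofReal (∫ ω, Ex G (256 ^ n - 1) o
          (fun l => mp (fun y => ζ y ω / (G.degree y : ℝ)) l) ∂P) := by
          rw [ofReal_integral_eq_lintegral_ofReal hEI]
          refine Filter.Eventually.of_forall fun ω => ?_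
          exact (UU_nonneg _ _ _).trans (UU_le (G := G) hd (fun y => ζ y ω / (G.degree y : ℝ)) _ o)
      _ ≤ ENNReal.ofReal C := by
          apply ENNReal.ofReal_le_ofReal
          rw [Ex_integral (P := P)
            (fun (l : List V) ω => mp (fun y => ζ y ω / (G.degree y : ℝ)) l) hmpI]
          exact hC n o
  have hsup : ∫⁻ ω, ⨆ n, f n ω ∂P ≤ ENNReal.ofReal C := by
    rw [lintegral_iSup hfm hmono]
    exact iSup_le hbd
  have hae := ae_lt_top (Measurable.iSup hfm) (hsup.trans_lt ENNReal.ofReal_lt_top).ne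
  filter_upwards [hae] with ω hω
  refine ⟨(⨆ n, f n ω).toReal, fun n => ?_⟩
  have h5 : f n ω ≤ ⨆ n, f n ω := le_iSup (fun n => f n ω) n
  have h6 := ENNReal.toReal_mono hω.ne h5
  simp only [hf] at h6
  rw [ENNReal.toReal_ofReal (UU_nonneg _ _ _)] at h6
  exact h6

end Pool.Agent.V1185.SP
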